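import Pool.Agent.V11302.ConnCore

namespace Pool.Agent.V11302.Conn

theorem chk0 : all 16 1 = true := by decide +kernel

theorem chk1 : all 16 65537 = true := by decide +kernel

theorem chk2 : all 16 131073 = true := by decide +kernel

end Pool.Agent.V11302.Conn
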