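import Pool.Agent.V11302.ConnCore

namespace Pool.Agent.V11302.Conn

theorem chk3 : all 16 196609 = true := by decide +kernel

theorem chk4 : all 16 262145 = true := by decide +kernel

theorem chk5 : all 16 327681 = true := by decide +kernel

end Pool.Agent.V11302.Conn
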