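/-! Kernel-friendly check used for `MP_28a92f_nt`: the map `z ↦ z (z+1)` modulo `1113643`. -/

namespace Pool.Agent.V11302.Conn

/-- The map `z ↦ z (z+1) mod 1113643`. -/
def g (z : Nat) : Nat := Nat.mod (Nat.mul z (Nat.succ z)) (nat_lit 1113643)

/-- `go v fuel y` checks that one of the iterates `g^[j] y`, `1 ≤ j ≤ 4 * fuel`, is `< v`. -/
noncomputable def go (v : Nat) (fuel : Nat) : Nat → Bool :=
  Nat.rec (motive := fun _ => Nat → Bool) (fun _ => false)
    (fun _ ih y =>
      (fun z1 => (fun z2 => (fun z3 => (fun z4 =>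
       Bool.rec true
         (Bool.rec true
           (Bool.rec true
             (Bool.rec true (ih z4) (Nat.ble v z4))
           (Nat.ble v z3))
         (Nat.ble v z2))
       (Nat.ble v z1))
        (Nat.mod (Nat.mul z3 (Nat.succ z3)) (nat_lit 1113643)))
        (Nat.mod (Nat.mul z2 (Nat.succ z2)) (nat_lit 1113643)))
        (Nat.mod (Nat.mul z1 (Nat.succ z1)) (nat_lit 1113643)))
       (Nat.mod (Nat.mul y (Nat.succ y)) (nat_lit 1113643))) fuel

/-- `all k lo` checks all `y` with `lo ≤ y < lo + 2 ^ k`: some iterate `g^[j] (g y)`, `j ≥ 1`,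
is `< g y`. -/
noncomputable def all (k : Nat) : Nat → Bool :=
  Nat.rec (motive := fun _ => Nat → Bool)
    (fun y => (fun v => go v (nat_lit 540) v)
          (Nat.mod (Nat.mul y (Nat.succ y)) (nat_lit 1113643)))
    (fun k ih lo => Bool.rec false (ih (Nat.add lo (Nat.pow (nat_lit 2) k))) (ih lo)) k

end Pool.Agent.V11302.Conn
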