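import Mathlib

/-! Kummer decomposition of the integral closure of `F[x]` in `F(x)(y)`, `y ^ 11 = x (8 - x) ^ 2`,
`F = ZMod 199`. -/

open Polynomial

namespace Pool.Agent.V11302.Jac

instance fact199 : Fact (Nat.Prime 199) := ⟨by norm_num⟩

/-- the base field -/
abbrev F := ZMod 199

/-- The polynomial `Y ^ p - x (a - x) ^ k` over the rational function field `F_l(x)`. -/
noncomputable def curvePoly (p k : ℕ) (a : ℤ) (l : ℕ) [Fact l.Prime] : (RatFunc (ZMod l))[X] :=
  X ^ p - C (RatFunc.X * ((a : RatFunc (ZMod l)) - RatFunc.X) ^ k)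

/-- `x (8 - x) ^ 2` -/
noncomputable def w : RatFunc F := RatFunc.X * (((8 : ℤ) : RatFunc F) - RatFunc.X) ^ 2

/-- the polynomial of the curve -/
noncomputable abbrev P : (RatFunc F)[X] := curvePoly 11 2 8 199

theorem P_eq : P = X ^ 11 - C w := rfl

theorem eight_sub : (((8 : ℤ) : RatFunc F) - RatFunc.X) = algebraMap F[X] (RatFunc F) (C 8 - X) := by
  rw [map_sub, RatFunc.algebraMap_X, RatFunc.algebraMap_C]
  congr 1
  push_cast
  exact (map_ofNat (RatFunc.C : F →+* RatFunc F) 8).symm

theorem w_eq : w = algebraMap F[X] (RatFunc F) (X * (C 8 - X) ^ 2) := by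
  unfold w
  rw [eight_sub, map_mul, map_pow, RatFunc.algebraMap_X]

theorem poly_ne : (C (8 : F) - X) ≠ 0 := by
  intro h
  have := congrArg (fun q => q.coeff 1) h
  simp at this

theorem natDegree_eight : (C (8 : F) - X).natDegree = 1 := by
  have : (C (8 : F) - X) = -(X - C 8) := by ring
  rw [this, natDegree_neg, natDegree_X_sub_C]

theorem w_ne : w ≠ 0 := by
  rw [w_eq, Ne, FaithfulSMul.algebraMap_eq_zero_iff]
  exact mul_ne_zero X_ne_zero (pow_ne_zero _ poly_ne)

theorem w_deg : w.intDegree = 3 := by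
  rw [w_eq, RatFunc.intDegree_polynomial, natDegree_mul X_ne_zero (pow_ne_zero _ poly_ne),
    natDegree_pow, natDegree_eight, natDegree_X]
  norm_num

theorem intDegree_pow' (b : RatFunc F) (hb : b ≠ 0) (n : ℕ) :
    (b ^ n).intDegree = n * b.intDegree := by
  induction n with
  | zero => simp
  | succ n ih => rw [pow_succ, RatFunc.intDegree_mul (pow_ne_zero _ hb) hb, ih]; push_cast; ring

theorem irr : Irreducible P := by
  rw [P_eq]
  apply X_pow_sub_C_irreducible_of_prime (by norm_num)
  intro b hb
  have hb0 : b ≠ 0 := by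
    rintro rfl
    exact w_ne (by rw [← hb]; simp)
  have h := congrArg RatFunc.intDegree hb
  rw [intDegree_pow' b hb0, w_deg] at h
  push_cast at h
  omega

instance factIrr : Fact (Irreducible P) := ⟨irr⟩

/-- The function field of the curve. -/
noncomputable abbrev K := AdjoinRoot P

noncomputable instance : Field K := inferInstance

/-- `x` -/
noncomputable def x : K := algebraMap (RatFunc F) K RatFunc.X
/-- `y` -/
noncomputable def y : K := AdjoinRoot.root P

theorem aeval_P {L : Type*} [CommRing L] [Algebra (RatFunc F) L] (z : L) :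
    aeval z P = z ^ 11 - algebraMap (RatFunc F) L w := by
  change aeval z (X ^ 11 - C w) = _
  rw [map_sub, map_pow, aeval_X, aeval_C]

theorem y_pow : y ^ 11 = algebraMap (RatFunc F) K w := by
  have h : aeval (AdjoinRoot.root P) P = 0 := by
    rw [AdjoinRoot.aeval_eq, AdjoinRoot.mk_self]
  rw [aeval_P] at h
  exact sub_eq_zero.mp h

theorem x_eq : x = algebraMap F[X] K X := by
  unfold x
  rw [IsScalarTower.algebraMap_apply F[X] (RatFunc F) K, RatFunc.algebraMap_X]

theorem monic_P : P.Monic := by
  rw [P_eq]; exact monic_X_pow_sub_C _ (by norm_num)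

theorem natDegree_P : P.natDegree = 11 := by
  rw [P_eq]; exact natDegree_X_pow_sub_C

theorem finite_K : Module.Finite (RatFunc F) K := monic_P.finite_adjoinRoot

noncomputable instance : Module.Finite (RatFunc F) K := finite_K

instance : FunctionField F K := finite_K

theorem expand (z : K) : ∃ h : ℕ → RatFunc F,
    z = ∑ j ∈ Finset.range 11, algebraMap (RatFunc F) K (h j) * y ^ j := by
  obtain ⟨q, rfl⟩ := AdjoinRoot.mk_surjective z
  refine ⟨fun j => (q %ₘ P).coeff j, ?_⟩
  have h1 : AdjoinRoot.mk P q = AdjoinRoot.mk P (q %ₘ P) := by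
    rw [AdjoinRoot.mk_eq_mk]
    refine ⟨q /ₘ P, ?_⟩
    have := modByMonic_add_div q P
    linear_combination (exp := 1) -this
  rw [h1]
  have h2 : (q %ₘ P).natDegree < 11 := by
    have := natDegree_modByMonic_lt q monic_P (by
      intro h
      have := natDegree_P
      rw [h] at this; simp at this)
    rwa [natDegree_P] at this
  conv_lhs => rw [(q %ₘ P).as_sum_range' 11 h2]
  rw [map_sum]
  apply Finset.sum_congr rfl
  intro j _
  rw [← C_mul_X_pow_eq_monomial, map_mul, map_pow, AdjoinRoot.mk_X, AdjoinRoot.mk_C]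
  rfl

theorem root_cond (c : F) (hc : c ^ 11 = 1) :
    aeval (algebraMap (RatFunc F) K (RatFunc.C c) * y) P = 0 := by
  rw [aeval_P, mul_pow, y_pow, ← map_pow, ← map_pow, hc, map_one, map_one, one_mul, sub_self]

/-- the automorphisms `y ↦ c y`, `c ^ 11 = 1` -/
noncomputable def σ (c : F) (hc : c ^ 11 = 1) : K →ₐ[RatFunc F] K :=
  AdjoinRoot.liftAlgHom P (Algebra.ofId (RatFunc F) K)
    (algebraMap (RatFunc F) K (RatFunc.C c) * y) (root_cond c hc)

theorem σ_y (c : F) (hc : c ^ 11 = 1) :
    σ c hc y = algebraMap (RatFunc F) K (RatFunc.C c) * y := by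
  have h := AdjoinRoot.liftAlgHom_root (S := RatFunc F) P (Algebra.ofId (RatFunc F) K)
    (algebraMap (RatFunc F) K (RatFunc.C c) * y) (root_cond c hc)
  exact h

theorem isSeparable_y : IsSeparable (RatFunc F) y := by
  have h : (X ^ 11 - C w : (RatFunc F)[X]).Separable := by
    refine separable_X_pow_sub_C _ ?_ w_ne
    rw [show ((11 : ℕ) : RatFunc F) = RatFunc.C (11 : F) by
      rw [map_ofNat]; norm_num]
    rw [Ne, map_eq_zero]
    decide
  refine h.of_dvd (minpoly.dvd _ _ ?_)
  rw [map_sub, map_pow, aeval_X, aeval_C, y_pow, sub_self]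

theorem adjoin_y : IntermediateField.adjoin (RatFunc F) {y} = ⊤ :=
  IntermediateField.adjoin_root_eq_top P

theorem isSeparable_K : Algebra.IsSeparable (RatFunc F) K := by
  have h := (IntermediateField.isSeparable_adjoin_simple_iff_isSeparable (RatFunc F) K).mpr
    isSeparable_y
  rw [adjoin_y] at h
  exact AlgEquiv.Algebra.isSeparable IntermediateField.topEquiv

instance : Algebra.IsSeparable (RatFunc F) K := isSeparable_K

theorem σ_alg (c : F) (hc : c ^ 11 = 1) (h : RatFunc F) :
    σ c hc (algebraMap (RatFunc F) K h) = algebraMap (RatFunc F) K h :=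
  (σ c hc).commutes h

end Pool.Agent.V11302.Jac
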