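import Pool.Agent.V11302.Jac1

/-! The valuation at infinity of the function field of `y ^ 11 = x (8 - x) ^ 2` over `ZMod 199`. -/

open Polynomial

namespace Pool.Agent.V11302.Jac

theorem alg_inj : Function.Injective (algebraMap F[X] K) := by
  rw [IsScalarTower.algebraMap_eq F[X] (RatFunc F) K]
  exact (algebraMap (RatFunc F) K).injective.comp (FaithfulSMul.algebraMap_injective _ _)

theorem x_not_integral : ¬ IsIntegral F x := by
  rintro ⟨p, hp, h⟩
  have hp0 : p ≠ 0 := hp.ne_zero
  apply hp0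
  have h1 : (algebraMap F[X] K) p = 0 := by
    rw [← h, x_eq]
    have := Polynomial.aeval_algebraMap_apply (R := F) K (X : F[X]) p
    rw [aeval_X_left_apply] at this
    rw [← this]
    rfl
  exact alg_inj (by rw [h1, map_zero])

theorem exists_V : ∃ V : ValuationSubring K, (∀ c : F, algebraMap F K c ∈ V) ∧ x ∉ V := by
  have h : x ∉ (integralClosure F K).toSubring := fun h => x_not_integral h
  obtain ⟨V, h1, h2⟩ := Subring.exists_le_valuationSubring_of_isIntegrallyClosedIn h
  exact ⟨V, fun c => h1 ((integralClosure F K).algebraMap_mem c), h2⟩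

variable {Γ : Type*} [LinearOrderedCommGroupWithZero Γ]

theorem v_const {L : Type*} [Field L] [Algebra F L] (v : Valuation L Γ) (c : F) (hc : c ≠ 0) :
    v (algebraMap F L c) = 1 := by
  have h1 : (v (algebraMap F L c)) ^ 198 = 1 := by
    rw [← map_pow, ← map_pow]
    have : c ^ 198 = 1 := ZMod.pow_card_sub_one_eq_one hc
    rw [this, map_one, map_one]
  rcases lt_trichotomy (v (algebraMap F L c)) 1 with h | h | h
  · exact absurd h1 (pow_lt_one₀ zero_le h (by norm_num)).ne
  · exact h
  · exact absurd h1 (one_lt_pow₀ h (by norm_num)).ne'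

theorem v_poly {L : Type*} [Field L] [Algebra F L] [Algebra F[X] L] [IsScalarTower F F[X] L]
    (v : Valuation L Γ) (hv : 1 < v (algebraMap F[X] L X)) (p : F[X]) (hp : p ≠ 0) :
    v (algebraMap F[X] L p) = v (algebraMap F[X] L X) ^ p.natDegree := by
  induction hn : p.natDegree using Nat.strong_induction_on generalizing p with
  | _ n ih =>
    have hlc : v (algebraMap F[X] L (C p.leadingCoeff * X ^ n)) = v (algebraMap F[X] L X) ^ n := by
      rw [map_mul, map_mul, map_pow, map_pow]
      have : algebraMap F[X] L (C p.leadingCoeff) = algebraMap F L p.leadingCoeff := by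
        rw [IsScalarTower.algebraMap_apply F F[X] L]; rfl
      rw [this, v_const v _ (leadingCoeff_ne_zero.mpr hp), one_mul]
    have hsum : algebraMap F[X] L p
        = algebraMap F[X] L p.eraseLead + algebraMap F[X] L (C p.leadingCoeff * X ^ n) := by
      rw [← map_add, ← hn, eraseLead_add_C_mul_X_pow]
    by_cases he : p.eraseLead = 0
    · rw [hsum, he, map_zero, zero_add, hlc]
    · have hlt : p.eraseLead.natDegree < n := by
        rw [← hn]
        exact (eraseLead_natDegree_lt_or_eraseLead_eq_zero p).resolve_right he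
      have h2 := ih _ hlt p.eraseLead he rfl
      rw [hsum, Valuation.map_add_eq_of_lt_right, hlc]
      rw [hlc, h2]
      exact pow_lt_pow_right₀ hv hlt

theorem v_rat {L : Type*} [Field L] [Algebra F L] [Algebra F[X] L] [Algebra (RatFunc F) L]
    [IsScalarTower F F[X] L] [IsScalarTower F[X] (RatFunc F) L]
    (v : Valuation L Γ) (hv : 1 < v (algebraMap F[X] L X)) (h : RatFunc F) (hh : h ≠ 0) :
    v (algebraMap (RatFunc F) L h) = v (algebraMap F[X] L X) ^ h.intDegree := by
  have hx : v (algebraMap F[X] L X) ≠ 0 := (zero_lt_one.trans hv).ne'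
  conv_lhs => rw [← RatFunc.num_div_denom h]
  rw [map_div₀, ← IsScalarTower.algebraMap_apply, ← IsScalarTower.algebraMap_apply, map_div₀,
    v_poly v hv _ (RatFunc.num_ne_zero hh), v_poly v hv _ (RatFunc.denom_ne_zero h),
    RatFunc.intDegree, zpow_sub₀ hx, zpow_natCast, zpow_natCast]

/-- `t` with `v x = t ^ 11` and `v y = t ^ 3` -/
noncomputable def tt (v : Valuation K Γ) : Γ := v y ^ 4 / v x

section place

variable (v : Valuation K Γ) (hv : 1 < v x)

include hv

theorem v_rat' (h : RatFunc F) (hh : h ≠ 0) :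
    v (algebraMap (RatFunc F) K h) = v x ^ h.intDegree := by
  rw [x_eq] at hv ⊢
  exact v_rat v hv h hh

theorem vy11 : v y ^ 11 = v x ^ 3 := by
  rw [← map_pow, y_pow, v_rat' v hv w w_ne, w_deg]
  norm_cast

theorem tt_pow11 : tt v ^ 11 = v x := by
  have hx : v x ≠ 0 := (zero_lt_one.trans hv).ne'
  unfold tt
  rw [div_pow, ← pow_mul, show 4 * 11 = 11 * 4 by norm_num, pow_mul, vy11 v hv, ← pow_mul,
    div_eq_iff (pow_ne_zero _ hx), ← pow_succ']

theorem tt_pow3 : tt v ^ 3 = v y := by
  have h1 : (tt v ^ 3) ^ 11 = (v y) ^ 11 := by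
    rw [← pow_mul, mul_comm, pow_mul, tt_pow11 v hv, vy11 v hv]
  exact (pow_left_inj₀ zero_le zero_le (by norm_num)).mp h1

theorem one_lt_tt : 1 < tt v := by
  by_contra hcon
  have h1 : tt v ^ 11 ≤ 1 := pow_le_one₀ zero_le (not_lt.mp hcon)
  rw [tt_pow11 v hv] at h1
  exact absurd hv (not_lt.mpr h1)

theorem v_term (h : RatFunc F) (hh : h ≠ 0) (j : ℕ) :
    v (algebraMap _ K h * y ^ j) = tt v ^ (11 * h.intDegree + 3 * (j : ℤ)) := by
  have ht : tt v ≠ 0 := (zero_lt_one.trans (one_lt_tt v hv)).ne'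
  rw [map_mul, map_pow, v_rat' v hv h hh, ← tt_pow11 v hv, ← tt_pow3 v hv, zpow_add₀ ht,
    zpow_mul, zpow_mul]
  norm_cast

theorem tt_inj {a b : ℤ} (h : tt v ^ a = tt v ^ b) : a = b :=
  (zpow_right_inj₀ (zero_lt_one.trans (one_lt_tt v hv)) (one_lt_tt v hv).ne').mp h

theorem v_sum (h : ℕ → RatFunc F) (z : K)
    (hz : z = ∑ j ∈ Finset.range 11, algebraMap (RatFunc F) K (h j) * y ^ j) (hz0 : z ≠ 0) :
    ∃ j < 11, h j ≠ 0 ∧ v z = tt v ^ (11 * (h j).intDegree + 3 * (j : ℤ)) := by
  classical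
  set s := (Finset.range 11).filter (fun j => h j ≠ 0) with hs
  have hsum : z = ∑ j ∈ s, algebraMap (RatFunc F) K (h j) * y ^ j := by
    rw [hz, hs, Finset.sum_filter_of_ne]
    intro j _ hj hj0
    apply hj
    rw [hj0, map_zero, zero_mul]
  have hne : s.Nonempty := by
    rw [Finset.nonempty_iff_ne_empty]
    intro h0
    rw [h0, Finset.sum_empty] at hsum
    exact hz0 hsum
  obtain ⟨j, hj, hmax⟩ := Finset.exists_max_image s
    (fun j => v (algebraMap (RatFunc F) K (h j) * y ^ j)) hne
  have hj' := hj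
  rw [hs, Finset.mem_filter, Finset.mem_range] at hj'
  refine ⟨j, hj'.1, hj'.2, ?_⟩
  rw [← v_term v hv (h j) hj'.2 j, hsum]
  refine Valuation.map_sum_eq_of_lt v hj ?_
  intro i hi
  rw [Finset.mem_sdiff, Finset.mem_singleton] at hi
  refine lt_of_le_of_ne (hmax i hi.1) ?_
  have hi' := hi.1
  rw [hs, Finset.mem_filter, Finset.mem_range] at hi'
  rw [v_term v hv (h j) hj'.2 j, v_term v hv (h i) hi'.2 i]
  intro heq
  have h2 := tt_inj v hv heq
  have h3 := hj'.1
  have h4 := hi'.1
  have h5 := hi.2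
  omega

end place

end Pool.Agent.V11302.Jac
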