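import Pool.Agent.V11302.Jac2

/-! Integral elements of the function field of `y ^ 11 = x (8 - x) ^ 2` over `ZMod 199`. -/

open Polynomial

namespace Pool.Agent.V11302.Jac

/-- a primitive 11-th root of unity modulo 199 -/
def ζ : F := 125

theorem ζ_pow : ζ ^ 11 = 1 := by decide +kernel

theorem ζi_pow (i : ℕ) : (ζ ^ i) ^ 11 = 1 := by
  rw [← pow_mul, mul_comm, pow_mul, ζ_pow, one_pow]

theorem orth : ∀ j < 11, ∀ k < 11, ∑ i ∈ Finset.range 11, (ζ ^ i) ^ (11 - j) * (ζ ^ i) ^ k =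
    if j = k then (11 : F) else 0 := by decide +kernel

theorem proj (h : ℕ → RatFunc F) (z : K)
    (hz : z = ∑ j ∈ Finset.range 11, algebraMap (RatFunc F) K (h j) * y ^ j) (j : ℕ) (hj : j < 11) :
    algebraMap (RatFunc F) K (h j) * y ^ j = algebraMap (RatFunc F) K (RatFunc.C (11 : F)⁻¹) *
      ∑ i ∈ Finset.range 11, algebraMap (RatFunc F) K (RatFunc.C ((ζ ^ i) ^ (11 - j))) *
        σ (ζ ^ i) (ζi_pow i) z := by
  have h1 : ∀ i, σ (ζ ^ i) (ζi_pow i) z = ∑ k ∈ Finset.range 11,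
      algebraMap (RatFunc F) K (h k) * (algebraMap (RatFunc F) K (RatFunc.C ((ζ ^ i) ^ k)) * y ^ k) := by
    intro i
    rw [hz, map_sum]
    apply Finset.sum_congr rfl
    intro k _
    rw [map_mul, map_pow, σ_y, σ_alg, mul_pow, ← map_pow, ← map_pow]
  have h2 : ∑ i ∈ Finset.range 11, algebraMap (RatFunc F) K (RatFunc.C ((ζ ^ i) ^ (11 - j))) *
        σ (ζ ^ i) (ζi_pow i) z = ∑ k ∈ Finset.range 11, algebraMap (RatFunc F) K (RatFunc.C
          (∑ i ∈ Finset.range 11, (ζ ^ i) ^ (11 - j) * (ζ ^ i) ^ k)) *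
          (algebraMap (RatFunc F) K (h k) * y ^ k) := by
    simp_rw [h1, Finset.mul_sum]
    rw [Finset.sum_comm]
    apply Finset.sum_congr rfl
    intro k _
    rw [map_sum, map_sum, Finset.sum_mul]
    apply Finset.sum_congr rfl
    intro i _
    rw [map_mul, map_mul]
    ring
  rw [h2, Finset.sum_eq_single j]
  · rw [orth j hj j hj, if_pos rfl, ← mul_assoc, ← map_mul, ← map_mul,
      show ((11 : F)⁻¹ * 11) = 1 by decide +kernel, map_one, map_one, one_mul]
  · intro k hk hkj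
    rw [orth j hj k (Finset.mem_range.mp hk), if_neg (Ne.symm hkj), map_zero, map_zero, zero_mul]
  · intro hj'
    exact absurd (Finset.mem_range.mpr hj) hj'

theorem integral_C (c : F) : IsIntegral F[X] (algebraMap (RatFunc F) K (RatFunc.C c)) := by
  rw [← RatFunc.algebraMap_C, ← IsScalarTower.algebraMap_apply F[X] (RatFunc F) K]
  exact isIntegral_algebraMap

theorem integral_σ (c : F) (hc : c ^ 11 = 1) (z : K) (hz : IsIntegral F[X] z) :
    IsIntegral F[X] (σ c hc z) :=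
  hz.map ((σ c hc).restrictScalars F[X])

theorem integral_comp (h : ℕ → RatFunc F) (z : K)
    (hz : z = ∑ j ∈ Finset.range 11, algebraMap (RatFunc F) K (h j) * y ^ j)
    (hi : IsIntegral F[X] z) (j : ℕ) (hj : j < 11) :
    IsIntegral F[X] (algebraMap (RatFunc F) K (h j) * y ^ j) := by
  rw [proj h z hz j hj]
  refine (integral_C _).mul (IsIntegral.sum _ fun i _ => (integral_C _).mul (integral_σ _ _ _ hi))

theorem poly_comp (h : ℕ → RatFunc F) (z : K)
    (hz : z = ∑ j ∈ Finset.range 11, algebraMap (RatFunc F) K (h j) * y ^ j)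
    (hi : IsIntegral F[X] z) (j : ℕ) (hj : j < 11) :
    ∃ q : F[X], algebraMap F[X] (RatFunc F) q = (h j) ^ 11 * w ^ j := by
  have h1 := (integral_comp h z hz hi j hj).pow 11
  rw [mul_pow, ← pow_mul, mul_comm j 11, pow_mul, y_pow, ← map_pow, ← map_pow, ← map_mul] at h1
  have h2 : IsIntegral F[X] ((h j) ^ 11 * w ^ j) :=
    (isIntegral_algebraMap_iff (algebraMap (RatFunc F) K).injective).mp h1
  exact IsIntegrallyClosed.isIntegral_iff.mp h2

theorem deg_nonneg (h : ℕ → RatFunc F) (z : K)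
    (hz : z = ∑ j ∈ Finset.range 11, algebraMap (RatFunc F) K (h j) * y ^ j)
    (hi : IsIntegral F[X] z) (j : ℕ) (hj : j < 11) (hj0 : h j ≠ 0) :
    0 ≤ 11 * (h j).intDegree + 3 * (j : ℤ) := by
  obtain ⟨q, hq⟩ := poly_comp h z hz hi j hj
  have h1 := congrArg RatFunc.intDegree hq
  rw [RatFunc.intDegree_polynomial, RatFunc.intDegree_mul (pow_ne_zero _ hj0)
    (pow_ne_zero _ w_ne), intDegree_pow' _ hj0, intDegree_pow' _ w_ne, w_deg] at h1
  have h2 : (0 : ℤ) ≤ (q.natDegree : ℤ) := Int.natCast_nonneg _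
  rw [h1] at h2
  push_cast at h2
  linarith

theorem coprime_X : IsCoprime (X : F[X]) (C 8 - X) := by
  refine ⟨C (8 : F)⁻¹, C (8 : F)⁻¹, ?_⟩
  have h : C (8 : F)⁻¹ * C 8 = 1 := by
    rw [← C_mul, show ((8 : F)⁻¹ * 8) = 1 by decide +kernel, C_1]
  linear_combination (exp := 1) h

theorem poly_lemma (t : RatFunc F) (ht : t ≠ 0) (q : F[X])
    (hq : algebraMap F[X] (RatFunc F) q =
      t ^ 11 * algebraMap F[X] (RatFunc F) (X ^ 9 * (C 8 - X) ^ 7)) : 0 ≤ t.intDegree := by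
  have hd : algebraMap F[X] (RatFunc F) t.denom ≠ 0 := by
    rw [Ne, FaithfulSMul.algebraMap_eq_zero_iff]
    exact RatFunc.denom_ne_zero t
  have h1 : q * t.denom ^ 11 = t.num ^ 11 * (X ^ 9 * (C 8 - X) ^ 7) := by
    apply FaithfulSMul.algebraMap_injective F[X] (RatFunc F)
    have ht2 : t * algebraMap F[X] (RatFunc F) t.denom = algebraMap F[X] (RatFunc F) t.num := by
      nth_rewrite 1 [← RatFunc.num_div_denom t]
      field_simp
    rw [map_mul, hq, map_mul (algebraMap F[X] (RatFunc F)) (t.num ^ 11), map_pow, map_pow, ← ht2]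
    ring
  have h2 : t.denom ^ 11 ∣ X ^ 9 * (C 8 - X) ^ 7 := by
    have hc : IsCoprime (t.denom ^ 11) (t.num ^ 11) :=
      (IsCoprime.pow (RatFunc.isCoprime_num_denom t)).symm
    exact hc.dvd_of_dvd_mul_left ⟨q, by rw [← h1, mul_comm]⟩
  have h3 : t.denom.natDegree = 0 := by
    by_contra hne
    have hnu : ¬ IsUnit t.denom := fun h => hne (natDegree_eq_zero_of_isUnit h)
    obtain ⟨π, hπ, hπd⟩ := WfDvdMonoid.exists_irreducible_factor hnu (RatFunc.denom_ne_zero t)
    have hπd' : 0 < π.natDegree := hπ.natDegree_pos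
    have h4 : π ^ 11 ∣ X ^ 9 * (C 8 - X) ^ 7 := (pow_dvd_pow_of_dvd hπd 11).trans h2
    have h5 : π ∣ X ^ 9 * (C 8 - X) ^ 7 := (dvd_pow_self π (by norm_num)).trans h4
    have hdeg8 : ((C (8 : F) - X) ^ 7).natDegree = 7 := by
      rw [natDegree_pow, natDegree_eight]
    rcases hπ.prime.dvd_or_dvd h5 with h | h
    · have h6 : π ∣ X := hπ.prime.dvd_of_dvd_pow h
      have h7 : IsCoprime π (C 8 - X) := coprime_X.of_isCoprime_of_dvd_left h6
      have h8 : π ^ 11 ∣ X ^ 9 := IsCoprime.dvd_of_dvd_mul_right (h7.pow) h4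
      have h9 := natDegree_le_of_dvd h8 (pow_ne_zero _ X_ne_zero)
      rw [natDegree_pow, natDegree_X_pow] at h9
      omega
    · have h6 : π ∣ (C 8 - X) := hπ.prime.dvd_of_dvd_pow h
      have h7 : IsCoprime π X := coprime_X.symm.of_isCoprime_of_dvd_left h6
      have h8 : π ^ 11 ∣ (C 8 - X) ^ 7 := IsCoprime.dvd_of_dvd_mul_left (h7.pow) h4
      have h9 := natDegree_le_of_dvd h8 (pow_ne_zero _ poly_ne)
      rw [natDegree_pow, hdeg8] at h9
      omega
  rw [RatFunc.intDegree, h3]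
  simp

theorem deg_nine (h : ℕ → RatFunc F) (z : K)
    (hz : z = ∑ j ∈ Finset.range 11, algebraMap (RatFunc F) K (h j) * y ^ j)
    (hi : IsIntegral F[X] z) (hj0 : h 9 ≠ 0) : -1 ≤ (h 9).intDegree := by
  obtain ⟨q, hq⟩ := poly_comp h z hz hi 9 (by norm_num)
  have h8 : algebraMap F[X] (RatFunc F) (C 8 - X) ≠ 0 := by
    rw [Ne, FaithfulSMul.algebraMap_eq_zero_iff]; exact poly_ne
  have h1 := poly_lemma (h 9 * algebraMap F[X] (RatFunc F) (C 8 - X)) (mul_ne_zero hj0 h8) q (by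
    rw [hq, w_eq]
    simp only [map_mul, map_pow]
    ring)
  rw [RatFunc.intDegree_mul hj0 h8, RatFunc.intDegree_polynomial, natDegree_eight] at h1
  push_cast at h1
  linarith

end Pool.Agent.V11302.Jac
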