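import Mathlib

/-! Polynomial identities behind a 2-torsion class. -/

namespace Pool.Agent.V11302.Jac

def ff {R : Type*} [CommRing R] (y u : R) : R := 48 - 96 * u - 11 * y + y * u - 41 * y ^ 2 + 35 * y ^ 3
def fg {R : Type*} [CommRing R] (x y u : R) : R := -84 + 31 * u + 40 * y + 62 * y * x + 90 * y * u - 90 * y ^ 2 + 7 * y ^ 2 * x + 55 * y ^ 2 * u + 75 * y ^ 3 + y ^ 3 * x + 18 * y ^ 3 * u - 84 * y ^ 4 - 35 * y ^ 4 * u - 84 * y ^ 5 + 31 * y ^ 6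
def fs {R : Type*} [CommRing R] (y : R) : R := -98 + 47 * y + 34 * y ^ 2 + 59 * y ^ 3 + 10 * y ^ 4 + y ^ 5

theorem ident1 {R : Type*} [CommRing R] (x y u : R) (h1 : u ^ 2 = x * y) (h2 : x * u = 8 * u - y ^ 6)
    (h3 : x ^ 2 = 8 * x - y ^ 5 * u) (h : (199 : R) = 0) :
    ff y u * fg x y u = - fs y ^ 2 := by
  unfold ff fg fs
  linear_combination (exp := 1) (-2976 - 8609 * y - 5190 * y ^ 2 - 1673 * y ^ 3 + 3378 * y ^ 4 - 35 * y ^ 5) * h1 + (-5952 * y - 610 * y ^ 2 - 89 * y ^ 3 + y ^ 4) * h2 + (0) * h3 + (28 + 48 * u - 32 * y - 239 * y * u - 29 * y ^ 2 - 45 * y ^ 2 * x + 21 * y ^ 2 * u - 42 * y ^ 3 - 39 * y ^ 3 * x - 52 * y ^ 3 * u + 25 * y ^ 4 + y ^ 4 * x + 36 * y ^ 4 * u - 23 * y ^ 5 + 18 * y ^ 5 * x + 48 * y ^ 5 * u + 64 * y ^ 6 - 5 * y ^ 6 * u + 37 * y ^ 7 - 6 * y ^ 7 * u - 17 * y ^ 8 + 6 * y ^ 9) *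 h


theorem ident2 {R : Type*} [CommRing R] (x y u : R) (h1 : u ^ 2 = x * y) (h2 : x * u = 8 * u - y ^ 6)
    (h3 : x ^ 2 = 8 * x - y ^ 5 * u) (h : (199 : R) = 0) :
    (59 - 93 * u - 14 * y - 57 * y * x - 71 * y * u + 74 * y ^ 2 - 78 * y ^ 2 * x - 51 * y ^ 2 * u - 42 * y ^ 3 - 42 * y ^ 3 * x - 56 * y ^ 3 * u) * ff y u + (53 + 73 * u - 21 * y + 42 * y * u - 6 * y ^ 2 - 45 * y ^ 3) * fg x y u + (-47 + 60 * u - 37 * y - 41 * y * u + 61 * y ^ 2 - 91 * y ^ 2 * u - 60 * y ^ 3 - 55 * y ^ 4) * fs y = 1 := by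
  unfold ff fg fs
  linear_combination (exp := 1) (11191 + 14595 * y + 12620 * y ^ 2 + 8949 * y ^ 3 - 1855 * y ^ 4 - 1470 * y ^ 5) * h1 + (9998 * y + 10546 * y ^ 2 + 4321 * y ^ 3) * h2 + (0) * h3 + (15 - 103 * u + 20 * y + 59 * y * x + 449 * y * u - 66 * y ^ 2 + 53 * y ^ 2 * x + 424 * y ^ 2 * u + 70 * y ^ 3 + 67 * y ^ 3 * x + 169 * y ^ 3 * u - 42 * y ^ 4 + 39 * y ^ 4 * x - 72 * y ^ 4 * u + 19 * y ^ 5 - 16 * y ^ 5 * x - 84 * y ^ 5 * u - 29 * y ^ 6 - 15 * y ^ 6 * x - 24 * y ^ 6 * u - 51 * y ^ 7 + 14 * y ^ 7 * u - 38 * y ^ 8 - 29 * y ^ 9) * h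

end Pool.Agent.V11302.Jac
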