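import Pool.Agent.V11302.Jac3
import Pool.Agent.V11302.JacId

/-! An ideal class of order two in the coordinate ring of `y ^ 11 = x (8 - x) ^ 2` over
`ZMod 199`. -/

open Polynomial nonZeroDivisors

namespace Pool.Agent.V11302.Jac

/-- the coordinate ring -/
noncomputable abbrev O := FunctionField.ringOfIntegers F K

theorem h199K : (199 : K) = 0 := by
  have h : (199 : K) = algebraMap F K (199 : F) := (map_ofNat _ _).symm
  rw [h, show (199 : F) = 0 by decide +kernel, map_zero]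

theorem y11 : y ^ 11 = x * (8 - x) ^ 2 := by
  rw [y_pow, w]
  unfold x
  simp only [map_mul, map_pow, map_sub]
  congr 3

theorem x_ne : x ≠ 0 := by
  rw [x_eq, Ne, ← map_zero (algebraMap F[X] K)]
  exact fun h => X_ne_zero (alg_inj h)

theorem eight_ne : (8 - x : K) ≠ 0 := by
  have h : (8 - x : K) = algebraMap F[X] K (C 8 - X) := by
    rw [map_sub, ← x_eq]
    congr 1
    exact (map_ofNat (algebraMap F[X] K) 8).symm
  rw [h, Ne, ← map_zero (algebraMap F[X] K)]
  exact fun h => poly_ne (alg_inj h)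

/-- `u = y ^ 6 / (8 - x)` -/
noncomputable def u : K := y ^ 6 / (8 - x)

theorem u_mul : u * (8 - x) = y ^ 6 := by
  unfold u
  rw [div_mul_cancel₀ _ eight_ne]

theorem rel1 : u ^ 2 = x * y := by
  have h : (8 - x : K) ^ 2 ≠ 0 := pow_ne_zero _ eight_ne
  apply mul_right_cancel₀ h
  calc u ^ 2 * (8 - x) ^ 2 = (u * (8 - x)) ^ 2 := by ring
    _ = y ^ 11 * y := by rw [u_mul]; ring
    _ = x * y * (8 - x) ^ 2 := by rw [y11]; ring

theorem rel2 : x * u = 8 * u - y ^ 6 := by
  rw [← u_mul]; ring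

theorem rel3 : x ^ 2 = 8 * x - y ^ 5 * u := by
  apply mul_right_cancel₀ eight_ne
  calc x ^ 2 * (8 - x) = 8 * x * (8 - x) - x * (8 - x) ^ 2 := by ring
    _ = 8 * x * (8 - x) - y ^ 5 * (u * (8 - x)) := by rw [← y11, u_mul]; ring
    _ = (8 * x - y ^ 5 * u) * (8 - x) := by ring

theorem int_x : IsIntegral F[X] x := by
  rw [x_eq]; exact isIntegral_algebraMap

theorem int_y : IsIntegral F[X] y := by
  apply IsIntegral.of_pow (n := 11) (by norm_num)
  rw [y_pow, w_eq, ← IsScalarTower.algebraMap_apply]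
  exact isIntegral_algebraMap

theorem int_u : IsIntegral F[X] u := by
  apply IsIntegral.of_pow (n := 2) (by norm_num)
  rw [rel1]
  exact int_x.mul int_y

/-- `x` in the coordinate ring -/
noncomputable def xO : O := ⟨x, int_x⟩
/-- `y` in the coordinate ring -/
noncomputable def yO : O := ⟨y, int_y⟩
/-- `u` in the coordinate ring -/
noncomputable def uO : O := ⟨u, int_u⟩

theorem o1 : uO ^ 2 = xO * yO := Subtype.ext rel1
theorem o2 : xO * uO = 8 * uO - yO ^ 6 := Subtype.ext rel2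
theorem o3 : xO ^ 2 = 8 * xO - yO ^ 5 * uO := Subtype.ext rel3
theorem o4 : (199 : O) = 0 := Subtype.ext h199K

/-- `f` -/
noncomputable def fO : O := ff yO uO
/-- the product of the conjugates of `f` -/
noncomputable def gO : O := fg xO yO uO
/-- `S` -/
noncomputable def sO : O := fs yO

theorem fg_eq : fO * gO = - sO ^ 2 := ident1 xO yO uO o1 o2 o3 o4

theorem bezout : ∃ α β γ : O, α * fO + β * gO + γ * sO = 1 :=
  ⟨_, _, _, ident2 xO yO uO o1 o2 o3 o4⟩

/-- the ideal `(f, S)` -/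
noncomputable def I : Ideal O := Ideal.span {fO, sO}

theorem I_sq : I * I = Ideal.span {fO} := by
  unfold I
  apply le_antisymm
  · rw [Ideal.span_mul_span', Ideal.span_le]
    rintro z ⟨a, ha, b, hb, rfl⟩
    simp only [Set.mem_insert_iff, Set.mem_singleton_iff] at ha hb
    rw [SetLike.mem_coe, Ideal.mem_span_singleton]
    rcases ha with rfl | rfl
    · exact Dvd.intro _ rfl
    · rcases hb with rfl | rfl
      · exact Dvd.intro_left _ rfl
      · exact ⟨-gO, by
          show sO * sO = fO * -gO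
          linear_combination (exp := 1) fg_eq⟩
  · rw [Ideal.span_singleton_le_iff_mem]
    obtain ⟨α, β, γ, h⟩ := bezout
    have hf : fO ∈ Ideal.span {fO, sO} := Ideal.subset_span (by simp)
    have hs : sO ∈ Ideal.span {fO, sO} := Ideal.subset_span (by simp)
    have e : fO = α * (fO * fO) + (-β) * (sO * sO) + γ * (fO * sO) := by
      linear_combination (exp := 1) (-fO) * h + β * fg_eq
    have hm : α * (fO * fO) + (-β) * (sO * sO) + γ * (fO * sO) ∈
        Ideal.span {fO, sO} * Ideal.span {fO, sO} :=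
      add_mem (add_mem (Ideal.mul_mem_left _ _ (Ideal.mul_mem_mul hf hf))
        (Ideal.mul_mem_left _ _ (Ideal.mul_mem_mul hs hs)))
        (Ideal.mul_mem_left _ _ (Ideal.mul_mem_mul hf hs))
    rwa [← e] at hm

variable {Γ : Type*} [LinearOrderedCommGroupWithZero Γ]

section place

variable (v : Valuation K Γ) (hv : 1 < v x)

include hv

theorem v_int (z : K) (hz : z ≠ 0) (hi : IsIntegral F[X] z) :
    ∃ n : ℤ, v z = tt v ^ n ∧ 0 ≤ n ∧ n ≠ 5 := by
  obtain ⟨h, hh⟩ := expand z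
  obtain ⟨j, hj, hj0, hvz⟩ := v_sum v hv h z hh hz
  refine ⟨_, hvz, deg_nonneg h z hh hi j hj hj0, ?_⟩
  intro h5
  have hj9 : j = 9 := by omega
  subst hj9
  have := deg_nine h z hh hi hj0
  omega

omit hv in
theorem v_num (c : F) : v (algebraMap F K c) ≤ 1 := by
  rcases eq_or_ne c 0 with h | h
  · rw [h, map_zero, map_zero]; exact zero_le_one
  · rw [v_const v c h]

theorem v_u : v u = tt v ^ 7 := by
  have h1 : v (8 - x) = tt v ^ 11 := by
    rw [tt_pow11 v hv]
    have h8 : v (8 : K) ≤ 1 := by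
      have := v_num v (8 : F)
      rwa [map_ofNat] at this
    exact Valuation.map_sub_eq_of_lt_right v (lt_of_le_of_lt h8 hv)
  have ht : tt v ≠ 0 := (zero_lt_one.trans (one_lt_tt v hv)).ne'
  have h2 := congrArg v u_mul
  rw [map_mul, map_pow, h1, ← tt_pow3 v hv, ← pow_mul] at h2
  apply mul_right_cancel₀ (pow_ne_zero 11 ht)
  rw [h2, ← pow_add]

theorem v_f : v (ff y u) = tt v ^ 10 := by
  have ht1 := one_lt_tt v hv
  have hy := tt_pow3 v hv
  have hu := v_u v hv
  have hone : ∀ n : ℕ, 1 ≤ tt v ^ n := fun n => one_le_pow₀ ht1.le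
  have hyu : v (y * u) = tt v ^ 10 := by
    rw [map_mul, ← hy, hu, ← pow_add]
  have e : ff y u = (algebraMap F K 48 + (algebraMap F K (-96) * u + (algebraMap F K (-11) * y +
      (algebraMap F K (-41) * y ^ 2 + algebraMap F K 35 * y ^ 3)))) + y * u := by
    unfold ff
    simp only [map_neg, map_ofNat]
    ring
  have key : ∀ (c : F) (z : K) (n : ℕ), n < 10 → v z = tt v ^ n →
      v (algebraMap F K c * z) < tt v ^ 10 := by
    intro c z n hn hz
    rw [map_mul, hz]
    calc v (algebraMap F K c) * tt v ^ n ≤ 1 * tt v ^ n := by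
          gcongr
          exact v_num v c
      _ = tt v ^ n := one_mul _
      _ < tt v ^ 10 := pow_lt_pow_right₀ ht1 hn
  rw [e, Valuation.map_add_eq_of_lt_right, hyu]
  rw [hyu]
  refine Valuation.map_add_lt v ?_ (Valuation.map_add_lt v ?_ (Valuation.map_add_lt v ?_
    (Valuation.map_add_lt v ?_ ?_)))
  · exact lt_of_le_of_lt (v_num v _) (one_lt_pow₀ ht1 (by norm_num))
  · exact key _ _ 7 (by norm_num) hu
  · exact key _ _ 3 (by norm_num) hy.symm
  · exact key _ _ 6 (by norm_num) (by rw [map_pow, ← hy, ← pow_mul])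
  · exact key _ _ 9 (by norm_num) (by rw [map_pow, ← hy, ← pow_mul])

end place

theorem exists_v : ∃ (Γ : Type) (_ : LinearOrderedCommGroupWithZero Γ) (v : Valuation K Γ),
    1 < v x := by
  obtain ⟨V, _, hV⟩ := exists_V
  refine ⟨V.ValueGroup, inferInstance, V.valuation, ?_⟩
  rw [← not_le, ValuationSubring.valuation_le_one_iff]
  exact hV

theorem f_ne : fO ≠ 0 := by
  intro h
  obtain ⟨Γ, _, v, hv⟩ := exists_v
  have h1 := v_f v hv
  have h2 : ff y u = 0 := congrArg Subtype.val h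
  rw [h2, map_zero] at h1
  exact (pow_ne_zero 10 (zero_lt_one.trans (one_lt_tt v hv)).ne') h1.symm

theorem I_ne : I ≠ 0 := by
  intro h
  have h1 := I_sq
  rw [h, mul_zero] at h1
  exact f_ne (Ideal.span_singleton_eq_bot.mp h1.symm)

theorem not_principal : ¬ I.IsPrincipal := by
  rintro ⟨g, hg⟩
  have hg' : I = Ideal.span {g} := hg
  have h1 := I_sq
  rw [hg', Ideal.span_singleton_mul_span_singleton, Ideal.span_singleton_eq_span_singleton] at h1
  obtain ⟨ε, hε⟩ := h1
  obtain ⟨Γ, _, v, hv⟩ := exists_v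
  have hg0 : g ≠ 0 := by
    rintro rfl
    apply f_ne
    rw [← hε]; simp
  have hgK : (g : K) ≠ 0 := fun h => hg0 (Subtype.ext h)
  have hεK : ((ε : O) : K) ≠ 0 := fun h => ε.ne_zero (Subtype.ext h)
  have hεK' : (((ε⁻¹ : Oˣ) : O) : K) ≠ 0 := fun h => (ε⁻¹).ne_zero (Subtype.ext h)
  obtain ⟨a, ha, _, ha5⟩ := v_int v hv (g : K) hgK g.2
  obtain ⟨b, hb, hb0, _⟩ := v_int v hv ((ε : O) : K) hεK (ε : O).2
  obtain ⟨c, hc, hc0, _⟩ := v_int v hv (((ε⁻¹ : Oˣ) : O) : K) hεK' ((ε⁻¹ : Oˣ) : O).2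
  have ht : tt v ≠ 0 := (zero_lt_one.trans (one_lt_tt v hv)).ne'
  have e1 : ((ε : O) : K) * (((ε⁻¹ : Oˣ) : O) : K) = 1 := congrArg Subtype.val (ε.mul_inv)
  have e2 : (g : K) * (g : K) * ((ε : O) : K) = ff y u := congrArg Subtype.val hε
  have e3 := congrArg v e1
  have e4 := congrArg v e2
  rw [map_mul, hb, hc, map_one, ← zpow_add₀ ht, ← zpow_zero (tt v)] at e3
  rw [map_mul, map_mul, ha, hb, v_f v hv, ← zpow_add₀ ht, ← zpow_add₀ ht, ← zpow_natCast] at e4
  have e5 := tt_inj v hv e3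
  have e6 := tt_inj v hv e4
  push_cast at e6
  omega

theorem class_even : Even (Nat.card (ClassGroup O)) := by
  have h1 : I ∈ (Ideal O)⁰ := mem_nonZeroDivisors_of_ne_zero I_ne
  have hne : ClassGroup.mk0 ⟨I, h1⟩ ≠ 1 := fun h =>
    not_principal ((ClassGroup.mk0_eq_one_iff h1).mp h)
  have hsq : ClassGroup.mk0 ⟨I, h1⟩ ^ 2 = 1 := by
    rw [← map_pow]
    have h2 : (⟨I, h1⟩ : (Ideal O)⁰) ^ 2 = ⟨Ideal.span {fO}, by
        rw [← I_sq]; exact mul_mem h1 h1⟩ := by
      apply Subtype.ext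
      rw [SubmonoidClass.coe_pow, sq]
      exact I_sq
    rw [h2, ClassGroup.mk0_eq_one_iff]
    exact ⟨fO, rfl⟩
  rw [even_iff_two_dvd, ← orderOf_eq_prime hsq hne]
  exact orderOf_dvd_natCard _

end Pool.Agent.V11302.Jac
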