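import Mathlib

/-! Iterated remainder sets: description through chains of quotients. -/

namespace Pool.Agent.V11302.Rem

/-- The iterated remainder sets: `S 0 n = {1, ..., ⌊n/2⌋}` and `S (j+1) n` is the set of the
remainders `n mod k` with `k` a nonzero element of `S j n`. -/
def S : ℕ → ℕ → Finset ℕ
  | 0, n => Finset.Icc 1 (n / 2)
  | j + 1, n => ((S j n).filter (fun k => k ≠ 0)).image (fun k => n % k)

theorem mem_S_succ {j n r : ℕ} : r ∈ S (j + 1) n ↔ ∃ k ∈ S j n, k ≠ 0 ∧ n % k = r := by
  rw [S, Finset.mem_image]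
  constructor
  · rintro ⟨k, hk, rfl⟩
    rw [Finset.mem_filter] at hk
    exact ⟨k, hk.1, hk.2, rfl⟩
  · rintro ⟨k, hk, hk0, rfl⟩
    exact ⟨k, Finset.mem_filter.mpr ⟨hk, hk0⟩, rfl⟩

theorem S_le {j n r : ℕ} (h : r ∈ S j n) : 2 * r ≤ n := by
  induction j generalizing r with
  | zero => rw [S, Finset.mem_Icc] at h; omega
  | succ j ih =>
    obtain ⟨k, hk, hk0, rfl⟩ := mem_S_succ.mp h
    have h1 := ih hk
    have h2 := Nat.mod_lt n (Nat.pos_of_ne_zero hk0)
    omega

/-- chains of quotients below `μ`, listed from the largest quotient down -/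
def Ch : ℕ → ℕ → List ℕ → Prop
  | 0, _, [] => True
  | j + 1, μ, q :: l => 2 ≤ q ∧ q ≤ μ ∧ Ch j (q - 1) l
  | 0, _, _ :: _ => False
  | _ + 1, _, [] => False

/-- the residue attached to a chain -/
def c : List ℕ → ℤ
  | [] => 0
  | q :: l => 1 - q * c l

/-- existence of a chain -/
def G : ℕ → ℕ → ℤ → ℤ → Prop
  | 0, _, _, _ => True
  | j + 1, μ, n, r => ∃ q : ℕ, 2 ≤ q ∧ q ≤ μ ∧ ∃ k : ℤ, n = q * k + r ∧ G j (q - 1) n k

theorem G_iff (j μ : ℕ) (n r : ℤ) :
    G j μ n r ↔ ∃ l, Ch j μ l ∧ (l.prod : ℤ) ∣ r - c l * n := by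
  induction j generalizing μ r with
  | zero =>
    simp only [G, true_iff]
    exact ⟨[], trivial, by simp⟩
  | succ j ih =>
    simp only [G]
    constructor
    · rintro ⟨q, hq2, hqμ, k, hk, hG⟩
      obtain ⟨l, hl, hd⟩ := (ih _ _).mp hG
      refine ⟨q :: l, ⟨hq2, hqμ, hl⟩, ?_⟩
      obtain ⟨t, ht⟩ := hd
      refine ⟨-t, ?_⟩
      simp only [c, List.prod_cons, Nat.cast_mul]
      linear_combination (exp := 1) (-1 : ℤ) * hk - (q : ℤ) * ht
    · rintro ⟨l, hl, hd⟩
      cases l with
      | nil => exact absurd hl (by simp [Ch])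
      | cons q l =>
        obtain ⟨hq2, hqμ, hl⟩ := hl
        obtain ⟨t, ht⟩ := hd
        simp only [c, List.prod_cons, Nat.cast_mul] at ht
        refine ⟨q, hq2, hqμ, c l * n - l.prod * t, ?_, ?_⟩
        · linear_combination (exp := 1) (-1 : ℤ) * ht
        · rw [ih]
          exact ⟨l, hl, ⟨-t, by ring⟩⟩

theorem prod_dvd {j μ : ℕ} {l : List ℕ} (h : Ch j μ l) : l.prod ∣ μ.factorial := by
  induction j generalizing μ l with
  | zero =>
    cases l with
    | nil => simp
    | cons q l => exact absurd h (by simp [Ch])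
  | succ j ih =>
    cases l with
    | nil => exact absurd h (by simp [Ch])
    | cons q l =>
      obtain ⟨hq2, hqμ, hl⟩ := h
      rw [List.prod_cons]
      have h1 := ih hl
      have h2 : q * (q - 1).factorial = q.factorial := Nat.mul_factorial_pred (by omega)
      exact (Nat.mul_dvd_mul_left q h1).trans (h2 ▸ Nat.factorial_dvd_factorial hqμ)

theorem prod_pos {j μ : ℕ} {l : List ℕ} (h : Ch j μ l) : 0 < l.prod :=
  Nat.pos_of_dvd_of_pos (prod_dvd h) (Nat.factorial_pos _)

/-- membership in the remainder sets through chains -/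
theorem mem_S_iff (j : ℕ) (hj : 1 ≤ j) (n r m : ℕ) (hr : 0 < r) (h1 : m * r < n)
    (h2 : n ≤ (m + 1) * r) : r ∈ S j n ↔ G j (m - 1) n r := by
  induction j, hj using Nat.le_induction generalizing r m with
  | base =>
    rw [mem_S_succ]
    simp only [G, and_true]
    constructor
    · rintro ⟨k, hk, hk0, hkr⟩
      rw [S, Finset.mem_Icc] at hk
      have h3 := Nat.div_add_mod n k
      have h4 := Nat.mod_lt n (Nat.pos_of_ne_zero hk0)
      rw [hkr] at h3 h4
      refine ⟨n / k, ?_, ?_, k, ?_⟩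
      · rw [Nat.le_div_iff_mul_le (Nat.pos_of_ne_zero hk0)]; omega
      · have h6 : 0 < n / k := Nat.div_pos (by omega) (Nat.pos_of_ne_zero hk0)
        have h5 : (n / k + 1) * r < (m + 1) * r := by nlinarith [Nat.mul_lt_mul_of_pos_left h4 h6]
        have := Nat.lt_of_mul_lt_mul_right h5
        omega
      · rw [← Nat.cast_mul, ← Nat.cast_add, mul_comm, h3]
    · rintro ⟨q, hq2, hqm, k, hk⟩
      have h3 : (r : ℤ) < k := by
        have h4 : ((q : ℤ) + 1) * r ≤ m * r := by
          have : (q : ℤ) + 1 ≤ m := by omega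
          nlinarith
        have h5 : (m : ℤ) * r < n := by exact_mod_cast h1
        have h6 : (q : ℤ) * r < q * k := by linarith
        exact lt_of_mul_lt_mul_left h6 (by positivity)
      obtain ⟨k', rfl⟩ := Int.eq_ofNat_of_zero_le (by linarith : 0 ≤ k)
      have h4 : n = q * k' + r := by exact_mod_cast hk
      have h5 : r < k' := by exact_mod_cast h3
      refine ⟨k', ?_, by omega, ?_⟩
      · rw [S, Finset.mem_Icc]
        constructor
        · omega
        · rw [Nat.le_div_iff_mul_le (by norm_num)]; nlinarith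
      · rw [h4, Nat.mul_add_mod_of_lt h5]
  | succ j hj ih =>
    rw [mem_S_succ]
    simp only [G]
    constructor
    · rintro ⟨k, hk, hk0, hkr⟩
      have hk2 := S_le hk
      have h3 := Nat.div_add_mod n k
      have h4 := Nat.mod_lt n (Nat.pos_of_ne_zero hk0)
      rw [hkr] at h3 h4
      refine ⟨n / k, ?_, ?_, k, ?_, ?_⟩
      · rw [Nat.le_div_iff_mul_le (Nat.pos_of_ne_zero hk0)]; omega
      · have h6 : 0 < n / k := Nat.div_pos (by omega) (Nat.pos_of_ne_zero hk0)
        have h5 : (n / k + 1) * r < (m + 1) * r := by nlinarith [Nat.mul_lt_mul_of_pos_left h4 h6]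
        have := Nat.lt_of_mul_lt_mul_right h5
        omega
      · rw [← Nat.cast_mul, ← Nat.cast_add, mul_comm, h3]
      · rw [← ih k (n / k) (Nat.pos_of_ne_zero hk0) (by rw [mul_comm]; omega)
          (by rw [add_mul, mul_comm]; omega)]
        exact hk
    · rintro ⟨q, hq2, hqm, k, hk, hG⟩
      have h3 : (r : ℤ) < k := by
        have h4 : ((q : ℤ) + 1) * r ≤ m * r := by
          have : (q : ℤ) + 1 ≤ m := by omega
          nlinarith
        have h5 : (m : ℤ) * r < n := by exact_mod_cast h1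
        have h6 : (q : ℤ) * r < q * k := by linarith
        exact lt_of_mul_lt_mul_left h6 (by positivity)
      obtain ⟨k', rfl⟩ := Int.eq_ofNat_of_zero_le (by linarith : 0 ≤ k)
      have h4 : n = q * k' + r := by exact_mod_cast hk
      have h5 : r < k' := by exact_mod_cast h3
      refine ⟨k', ?_, by omega, ?_⟩
      · exact (ih k' q (by omega) (by omega) (by rw [add_mul]; omega)).mpr hG
      · rw [h4, Nat.mul_add_mod_of_lt h5]

end Pool.Agent.V11302.Rem
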