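import Pool.Agent.V11302.Rem1

/-! Comparison of unions of residue classes. -/

namespace Pool.Agent.V11302.Rem

open Function

/-- two-part -/
def ev (n : ℕ) : ℕ := 2 ^ n.factorization 2
/-- odd part -/
def od (n : ℕ) : ℕ := n / 2 ^ n.factorization 2

theorem ev_mul_od (n : ℕ) : ev n * od n = n := Nat.ordProj_mul_ordCompl_eq_self n 2

theorem coprime_ev_od (n : ℕ) (hn : n ≠ 0) : Nat.Coprime (ev n) (od n) :=
  Nat.Coprime.pow_left _ (Nat.coprime_ordCompl Nat.prime_two hn)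

theorem ev_dvd {a b : ℕ} (hb : b ≠ 0) (h : a ∣ b) : ev a ∣ ev b :=
  Nat.ordProj_dvd_ordProj_of_dvd hb h 2

theorem od_dvd {a b : ℕ} (h : a ∣ b) : od a ∣ od b := Nat.ordCompl_dvd_ordCompl_of_dvd h 2

/-- chains compatible with `r` at the odd primes -/
def T (j μ : ℕ) (r : ℤ) : Set (List ℕ) := {l | Ch j μ l ∧ (od l.prod : ℤ) ∣ r}

open scoped Classical in
/-- a chain with the smallest power of two -/
noncomputable def lstar (A : Set (List ℕ)) : List ℕ :=
  if h : A.Nonempty then argminOn (fun l : List ℕ => l.prod.factorization 2) A h else []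

theorem lstar_mem {A : Set (List ℕ)} (h : A.Nonempty) : lstar A ∈ A := by
  unfold lstar
  rw [dif_pos h]
  exact argminOn_mem _ _ _

theorem lstar_le {A : Set (List ℕ)} {l : List ℕ} (h : l ∈ A) :
    (lstar A).prod.factorization 2 ≤ l.prod.factorization 2 := by
  unfold lstar
  rw [dif_pos ⟨l, h⟩]
  exact argminOn_le (fun l : List ℕ => l.prod.factorization 2) A h

theorem T_congr {j μ : ℕ} {r s : ℤ} (h : (od μ.factorial : ℤ) ∣ r - s) : T j μ r = T j μ s := by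
  ext l
  unfold T
  simp only [Set.mem_ofPred_eq]
  refine and_congr_right fun hl => ?_
  have h1 : (od l.prod : ℤ) ∣ r - s :=
    (Int.natCast_dvd_natCast.mpr (od_dvd (prod_dvd hl))).trans h
  exact dvd_iff_dvd_of_dvd_sub h1

theorem dvd_of_parts {N : ℕ} (hN : N ≠ 0) {z : ℤ} (h1 : (ev N : ℤ) ∣ z) (h2 : (od N : ℤ) ∣ z) :
    (N : ℤ) ∣ z := by
  have h3 : IsCoprime (ev N : ℤ) (od N : ℤ) := Nat.isCoprime_iff_coprime.mpr (coprime_ev_od N hN)
  have h4 := h3.mul_dvd h1 h2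
  rwa [← Nat.cast_mul, ev_mul_od] at h4

theorem parts_of_dvd {N : ℕ} {z : ℤ} (h : (N : ℤ) ∣ z) : (ev N : ℤ) ∣ z ∧ (od N : ℤ) ∣ z := by
  rw [← ev_mul_od N] at h
  push_cast at h
  exact ⟨(dvd_mul_right _ _).trans h, (dvd_mul_left _ _).trans h⟩

theorem G_zero {j μ : ℕ} {r : ℤ} : G j μ 0 r ↔ ∃ l, Ch j μ l ∧ (l.prod : ℤ) ∣ r := by
  rw [G_iff]
  simp

theorem lstar_T {j μ : ℕ} {r : ℤ} (h : G j μ 0 r) :
    Ch j μ (lstar (T j μ r)) ∧ ((lstar (T j μ r)).prod : ℤ) ∣ r := by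
  obtain ⟨l, hl, hd⟩ := G_zero.mp h
  have hlT : l ∈ T j μ r := ⟨hl, (parts_of_dvd hd).2⟩
  have h1 := lstar_mem ⟨l, hlT⟩
  have h2 := lstar_le hlT
  refine ⟨h1.1, dvd_of_parts (prod_pos h1.1).ne' ?_ h1.2⟩
  refine dvd_trans ?_ (parts_of_dvd hd).1
  exact Int.natCast_dvd_natCast.mpr (pow_dvd_pow 2 h2)

theorem G_shift {j μ : ℕ} {n r s : ℤ} (h : (μ.factorial : ℤ) ∣ r - s) :
    G j μ n r ↔ G j μ n s := by
  have key : ∀ r s : ℤ, (μ.factorial : ℤ) ∣ r - s → G j μ n s → G j μ n r := by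
    intro r s h hs
    rw [G_iff] at hs ⊢
    obtain ⟨l, hl, hd⟩ := hs
    refine ⟨l, hl, ?_⟩
    have h1 : (l.prod : ℤ) ∣ r - s := (Int.natCast_dvd_natCast.mpr (prod_dvd hl)).trans h
    have : r - c l * n = (r - s) + (s - c l * n) := by ring
    rw [this]
    exact dvd_add h1 hd
  refine ⟨key s r ?_, key r s h⟩
  rw [← neg_sub]
  exact (dvd_neg).mpr h

theorem G_shift_n {j μ : ℕ} {n m r : ℤ} (h : (μ.factorial : ℤ) ∣ n - m) :
    G j μ n r ↔ G j μ m r := by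
  have key : ∀ n m : ℤ, (μ.factorial : ℤ) ∣ n - m → G j μ m r → G j μ n r := by
    intro n m h hs
    rw [G_iff] at hs ⊢
    obtain ⟨l, hl, hd⟩ := hs
    refine ⟨l, hl, ?_⟩
    have h1 : (l.prod : ℤ) ∣ n - m := (Int.natCast_dvd_natCast.mpr (prod_dvd hl)).trans h
    have : r - c l * n = (r - c l * m) - c l * (n - m) := by ring
    rw [this]
    exact dvd_sub hd (h1.mul_left _)
  refine ⟨key m n ?_, key n m h⟩
  rw [← neg_sub]
  exact (dvd_neg).mpr h

section compare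

variable (j μ : ℕ) (ν : ℤ) (h2 : (ev μ.factorial : ℤ) ∣ ν - 1) (ho : (od μ.factorial : ℤ) ∣ ν)

/-- the comparison map -/
noncomputable def φ (r : ℕ) : ℕ :=
  (((r : ℤ) + c (lstar (T j μ r)) * ν) % (μ.factorial : ℤ)).toNat

theorem φ_cast (r : ℕ) :
    ((φ j μ ν r : ℕ) : ℤ) = ((r : ℤ) + c (lstar (T j μ r)) * ν) % (μ.factorial : ℤ) := by
  unfold φ
  rw [Int.toNat_of_nonneg]
  exact Int.emod_nonneg _ (by exact_mod_cast (Nat.factorial_ne_zero μ))

theorem φ_lt (r : ℕ) : φ j μ ν r < μ.factorial := by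
  have h1 := φ_cast j μ ν r
  have h2 : ((r : ℤ) + c (lstar (T j μ r)) * ν) % (μ.factorial : ℤ) < μ.factorial :=
    Int.emod_lt_of_pos _ (by exact_mod_cast Nat.factorial_pos μ)
  rw [← h1] at h2
  exact_mod_cast h2

theorem φ_dvd (r : ℕ) :
    (μ.factorial : ℤ) ∣ (r : ℤ) + c (lstar (T j μ r)) * ν - (φ j μ ν r : ℕ) := by
  rw [φ_cast]
  exact Int.dvd_self_sub_emod

theorem φ_G (r : ℕ) (h : G j μ 0 r) : G j μ ν (φ j μ ν r : ℕ) := by
  rw [← G_shift (φ_dvd j μ ν r), G_iff]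
  obtain ⟨h1, h2⟩ := lstar_T h
  exact ⟨_, h1, by simpa using h2⟩

include ho in
theorem φ_odd (r : ℕ) : (od μ.factorial : ℤ) ∣ (r : ℤ) - (φ j μ ν r : ℕ) := by
  have h1 := (parts_of_dvd (φ_dvd j μ ν r)).2
  have : (r : ℤ) - (φ j μ ν r : ℕ) = ((r : ℤ) + c (lstar (T j μ r)) * ν - (φ j μ ν r : ℕ))
    - c (lstar (T j μ r)) * ν := by ring
  rw [this]
  exact dvd_sub h1 (ho.mul_left _)

include ho in
theorem φ_inj (r s : ℕ) (hr : r < μ.factorial) (hs : s < μ.factorial)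
    (h : φ j μ ν r = φ j μ ν s) : r = s := by
  have h1 := φ_odd j μ ν ho r
  have h2 := φ_odd j μ ν ho s
  rw [← h] at h2
  have h3 : (od μ.factorial : ℤ) ∣ (r : ℤ) - s := by
    have := dvd_sub h1 h2
    rwa [sub_sub_sub_cancel_right] at this
  have h4 : T j μ (r : ℤ) = T j μ (s : ℤ) := T_congr h3
  have h5 := φ_dvd j μ ν r
  have h6 := φ_dvd j μ ν s
  rw [h4] at h5
  rw [← h] at h6
  have h7 := dvd_sub h5 h6
  have h8 : (μ.factorial : ℤ) ∣ (r : ℤ) - s := by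
    have e : (r : ℤ) + c (lstar (T j μ s)) * ν - (φ j μ ν r : ℕ)
      - ((s : ℤ) + c (lstar (T j μ s)) * ν - (φ j μ ν r : ℕ)) = (r : ℤ) - s := by ring
    rwa [e] at h7
  have h9 : (r : ℤ) ≡ s [ZMOD μ.factorial] := (Int.modEq_iff_dvd.mpr (by
    rw [← neg_sub]; exact (dvd_neg).mpr h8))
  have h10 : r ≡ s [MOD μ.factorial] := Int.natCast_modEq_iff.mp h9
  exact Nat.ModEq.eq_of_lt_of_lt h10 hr hs

open scoped Classical in
/-- number of residues -/
noncomputable def cnt (j μ : ℕ) (n : ℤ) : ℕ := Nat.count (fun r : ℕ => G j μ n r) μ.factorial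

include ho in
theorem cnt_le : cnt j μ 0 ≤ cnt j μ ν := by
  classical
  unfold cnt
  rw [Nat.count_eq_card_filter_range, Nat.count_eq_card_filter_range]
  apply Finset.card_le_card_of_injOn (φ j μ ν)
  · intro r hr
    simp only [Finset.coe_filter, Finset.mem_range, Set.mem_ofPred_eq] at hr ⊢
    exact ⟨φ_lt j μ ν r, φ_G j μ ν r hr.2⟩
  · intro r hr s hs h
    simp only [Finset.coe_filter, Finset.mem_range, Set.mem_ofPred_eq] at hr hs
    exact φ_inj j μ ν ho r s hr.1 hs.1 h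

include h2 ho in
theorem cnt_lt (heven : ∀ l, Ch j μ l → 2 ∣ l.prod) (lA lB : List ℕ) (hA : Ch j μ lA)
    (hB : Ch j μ lB) (hpA : ¬ Odd (c lA)) (hpB : Odd (c lB)) : cnt j μ 0 < cnt j μ ν := by
  classical
  have h2N : (2 : ℤ) ∣ ev μ.factorial := by
    have h : 2 ∣ μ.factorial := (heven lA hA).trans (prod_dvd hA)
    have h' := ev_dvd (Nat.factorial_ne_zero μ) h
    have h'' : ev 2 = 2 := by
      unfold ev
      rw [Nat.Prime.factorization_self Nat.prime_two, pow_one]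
    rw [h''] at h'
    exact_mod_cast h'
  have hν : Odd ν := by
    have h : (2 : ℤ) ∣ ν - 1 := h2N.trans h2
    obtain ⟨k, hk⟩ := h
    exact ⟨k, by linarith⟩
  have hX : ∃ lX, Ch j μ lX ∧ ¬ (Odd (c lX) ↔ Odd (c (lstar (T j μ 0)))) := by
    by_cases h : Odd (c (lstar (T j μ 0)))
    · exact ⟨lA, hA, fun h' => hpA (h'.mpr h)⟩
    · exact ⟨lB, hB, fun h' => h (h'.mp hpB)⟩
  obtain ⟨lX, hX, hne⟩ := hX
  set r0 : ℕ := ((c lX * ν) % (μ.factorial : ℤ)).toNat with hr0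
  have hr0c : (r0 : ℤ) = (c lX * ν) % (μ.factorial : ℤ) := by
    rw [hr0, Int.toNat_of_nonneg]
    exact Int.emod_nonneg _ (by exact_mod_cast (Nat.factorial_ne_zero μ))
  have hr0lt : r0 < μ.factorial := by
    have h2 : (c lX * ν) % (μ.factorial : ℤ) < μ.factorial :=
      Int.emod_lt_of_pos _ (by exact_mod_cast Nat.factorial_pos μ)
    rw [← hr0c] at h2
    exact_mod_cast h2
  have hr0d : (μ.factorial : ℤ) ∣ c lX * ν - r0 := by
    rw [hr0c]; exact Int.dvd_self_sub_emod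
  have hr0G : G j μ ν r0 := by
    rw [← G_shift hr0d, G_iff]
    exact ⟨lX, hX, by simp⟩
  unfold cnt
  rw [Nat.count_eq_card_filter_range, Nat.count_eq_card_filter_range]
  have hmem : r0 ∈ (Finset.range μ.factorial).filter (fun r : ℕ => G j μ ν r) := by
    rw [Finset.mem_filter, Finset.mem_range]
    exact ⟨hr0lt, hr0G⟩
  have hlt := Finset.card_erase_lt_of_mem hmem
  refine lt_of_le_of_lt ?_ hlt
  apply Finset.card_le_card_of_injOn (φ j μ ν)
  · intro r hr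
    simp only [Finset.coe_filter, Finset.mem_range, Set.mem_ofPred_eq] at hr
    simp only [Finset.coe_erase, Finset.coe_filter, Finset.mem_range, Set.mem_sdiff,
      Set.mem_ofPred_eq, Set.mem_singleton_iff]
    refine ⟨⟨φ_lt j μ ν r, φ_G j μ ν r hr.2⟩, ?_⟩
    intro heq
    have h3 := φ_odd j μ ν ho r
    rw [heq] at h3
    have h4 : (od μ.factorial : ℤ) ∣ (r : ℤ) - 0 := by
      have h5 := (parts_of_dvd hr0d).2
      have e : (r : ℤ) - 0 = ((r : ℤ) - r0) - (c lX * ν - r0) + c lX * ν := by ring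
      rw [e]
      exact dvd_add (dvd_sub h3 h5) (ho.mul_left _)
    have h5 : T j μ (r : ℤ) = T j μ 0 := T_congr h4
    have h6 := φ_dvd j μ ν r
    rw [heq, h5] at h6
    have h7 : (2 : ℤ) ∣ (r : ℤ) + c (lstar (T j μ 0)) * ν - r0 :=
      h2N.trans (parts_of_dvd h6).1
    have h8 : (2 : ℤ) ∣ c lX * ν - r0 := h2N.trans (parts_of_dvd hr0d).1
    have h9 : (2 : ℤ) ∣ (r : ℤ) := by
      obtain ⟨l, hl, hd⟩ := G_zero.mp hr.2
      exact (Int.natCast_dvd_natCast.mpr (heven l hl)).trans hd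
    apply hne
    have h10 : Even ((c (lstar (T j μ 0)) - c lX) * ν) := by
      rw [even_iff_two_dvd]
      have e : (c (lstar (T j μ 0)) - c lX) * ν =
        ((r : ℤ) + c (lstar (T j μ 0)) * ν - r0) - (c lX * ν - r0) - r := by ring
      rw [e]
      exact dvd_sub (dvd_sub h7 h8) h9
    rw [Int.even_mul, or_iff_left (Int.not_even_iff_odd.mpr hν), Int.even_sub] at h10
    rw [← Int.not_even_iff_odd, ← Int.not_even_iff_odd, not_iff_not]
    exact h10.symm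
  · intro r hr s hs h
    simp only [Finset.coe_filter, Finset.mem_range, Set.mem_ofPred_eq] at hr hs
    exact φ_inj j μ ν ho r s hr.1 hs.1 h

end compare

end Pool.Agent.V11302.Rem
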