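import Pool.Agent.V11302.Rem2

/-! Explicit chains. -/

namespace Pool.Agent.V11302.Rem

theorem Ch_mono {j μ μ' : ℕ} {l : List ℕ} (h : Ch j μ l) (hμ : μ ≤ μ') : Ch j μ' l := by
  cases j with
  | zero =>
    cases l with
    | nil => trivial
    | cons q l => exact absurd h (by simp [Ch])
  | succ j =>
    cases l with
    | nil => exact absurd h (by simp [Ch])
    | cons q l => exact ⟨h.1, h.2.1.trans hμ, h.2.2⟩

theorem odd_bound {j μ : ℕ} {l : List ℕ} (h : Ch j μ l) (ho : ¬ 2 ∣ l.prod) :
    j = 0 ∨ 2 * j + 1 ≤ μ := by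
  induction j generalizing μ l with
  | zero => left; rfl
  | succ j ih =>
    right
    cases l with
    | nil => exact absurd h (by simp [Ch])
    | cons q l =>
      obtain ⟨hq2, hqμ, hl⟩ := h
      rw [List.prod_cons, Nat.prime_two.dvd_mul, not_or] at ho
      rcases ih hl ho.2 with h0 | h0 <;> omega

theorem even_all {j : ℕ} (hj : 2 ≤ j) (l : List ℕ) (h : Ch j (j + 2) l) : 2 ∣ l.prod := by
  by_contra ho
  rcases odd_bound h ho with h0 | h0 <;> omega

/-- `[k+1, k, ..., 2]` -/
def full : ℕ → List ℕ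
  | 0 => []
  | k + 1 => (k + 2) :: full k

theorem full_Ch (k : ℕ) : Ch k (k + 1) (full k) := by
  induction k with
  | zero => trivial
  | succ k ih => exact ⟨by omega, by omega, ih⟩

theorem odd_c_full (k : ℕ) : Odd (c (full k)) ↔ Odd k := by
  induction k with
  | zero => simp [full, c]
  | succ k ih =>
    simp only [full, c]
    rw [Int.odd_sub, Int.even_mul, Nat.odd_add_one, ← ih]
    push_cast
    simp only [Int.not_odd_iff_even, odd_one, true_iff, Int.even_add, even_two, iff_true]
    rw [Int.even_coe_nat, ← Nat.not_odd_iff_even, ← ih, Int.not_odd_iff_even, or_self]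

theorem chains (j : ℕ) (hj : 2 ≤ j) : ∃ lA lB, Ch j (j + 2) lA ∧ Ch j (j + 2) lB ∧
    ¬ Odd (c lA) ∧ Odd (c lB) := by
  rcases Nat.even_or_odd j with he | ho
  · refine ⟨full j, (j + 2) :: full (j - 1), Ch_mono (full_Ch j) (by omega), ?_, ?_, ?_⟩
    · obtain ⟨i, rfl⟩ : ∃ i, j = i + 1 := ⟨j - 1, by omega⟩
      exact ⟨by omega, by omega, Ch_mono (full_Ch i) (by omega)⟩
    · rw [odd_c_full]; exact Nat.not_odd_iff_even.mpr he
    · simp only [c]
      rw [Int.odd_sub]
      simp only [odd_one, true_iff]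
      refine Even.mul_right ?_ _
      have : Even (j + 2) := he.add even_two
      exact_mod_cast this
  · refine ⟨(j + 2) :: (j + 1) :: full (j - 2), full j, ?_, Ch_mono (full_Ch j) (by omega), ?_, ?_⟩
    · obtain ⟨i, rfl⟩ : ∃ i, j = i + 2 := ⟨j - 2, by omega⟩
      exact ⟨by omega, by omega, by omega, by omega, Ch_mono (full_Ch i) (by omega)⟩
    · simp only [c]
      have h1 : Even ((j + 1 : ℕ) : ℤ) := by
        have : Even (j + 1) := ho.add_one
        exact_mod_cast this
      have h2 : Odd ((j + 2 : ℕ) : ℤ) := by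
        have : Odd (j + 2) := ho.add_even even_two
        exact_mod_cast this
      rw [Int.not_odd_iff_even]
      have h3 : Odd (1 - ((j + 1 : ℕ) : ℤ) * c (full (j - 2))) := odd_one.sub_even (h1.mul_right _)
      exact odd_one.sub_odd (h2.mul h3)
    · rw [odd_c_full]; exact ho

end Pool.Agent.V11302.Rem
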