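import Pool.Agent.V11302.Rem3

/-! Counting. -/

namespace Pool.Agent.V11302.Rem

open Function

theorem card_periodic (p : ℕ → Prop) [DecidablePred p] (N : ℕ) (hp : Periodic p N) (a k : ℕ) :
    ((Finset.Ico a (a + N * k)).filter p).card = k * N.count p := by
  induction k with
  | zero => simp
  | succ k ih =>
    have h1 : Finset.Ico a (a + N * (k + 1)) =
        Finset.Ico a (a + N * k) ∪ Finset.Ico (a + N * k) (a + N * k + N) := by
      rw [Finset.Ico_union_Ico_eq_Ico (by omega) (by omega)]
      congr 1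
      ring
    rw [h1, Finset.filter_union, Finset.card_union_of_disjoint, ih,
      Nat.filter_Ico_card_eq_of_periodic _ _ _ hp]
    · ring
    · exact Finset.disjoint_filter_filter (Finset.Ico_disjoint_Ico_consecutive _ _ _)

theorem G_periodic (j μ : ℕ) (n : ℤ) : Periodic (fun r : ℕ => G j μ n r) μ.factorial := by
  intro r
  simp only [eq_iff_iff]
  apply G_shift
  push_cast
  simp

/-- left end of the `m`-th interval for `n = (m+1)! k` -/
def aa (m k : ℕ) : ℕ := m.factorial * k
/-- right end of the `m`-th interval for `n = (m+1)! k` -/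
def bb (m k : ℕ) : ℕ := (m + 1) * (m - 1).factorial * k

theorem bb_eq (m k : ℕ) (hm : 1 ≤ m) : bb m k = aa m k + (m - 1).factorial * k := by
  unfold aa bb
  have : m.factorial = m * (m - 1).factorial := (Nat.mul_factorial_pred (by omega)).symm
  rw [this]; ring

theorem aa_mul (m k : ℕ) : (m + 1) * aa m k = (m + 1).factorial * k := by
  unfold aa
  rw [Nat.factorial_succ]; ring

theorem bb_mul (m k : ℕ) (hm : 1 ≤ m) : m * bb m k = (m + 1).factorial * k := by
  unfold bb
  have : m.factorial = m * (m - 1).factorial := (Nat.mul_factorial_pred (by omega)).symm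
  rw [Nat.factorial_succ, this]; ring

open scoped Classical in
/-- the part of the `m`-th interval in the classes -/
noncomputable def blk (j m k : ℕ) (n : ℤ) : Finset ℕ :=
  (Finset.Ico (aa m k) (bb m k)).filter (fun r : ℕ => G j (m - 1) n r)

theorem card_blk (j m k : ℕ) (n : ℤ) (hm : 1 ≤ m) :
    (blk j m k n).card = k * cnt j (m - 1) n := by
  classical
  unfold blk cnt
  rw [bb_eq m k hm]
  exact card_periodic _ _ (G_periodic j (m - 1) n) _ _

open scoped Classical in
/-- the same with a shifted left end -/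
noncomputable def blk' (j m k ν : ℕ) (n : ℤ) : Finset ℕ :=
  (Finset.Ico (aa m k + ν) (bb m k)).filter (fun r : ℕ => G j (m - 1) n r)

theorem card_blk' (j m k ν : ℕ) (n : ℤ) :
    (blk j m k n).card ≤ (blk' j m k ν n).card + ν := by
  classical
  have h1 : blk j m k n ⊆ blk' j m k ν n ∪ Finset.Ico (aa m k) (aa m k + ν) := by
    intro r hr
    unfold blk at hr
    rw [Finset.mem_filter, Finset.mem_Ico] at hr
    rw [Finset.mem_union]
    rcases lt_or_ge r (aa m k + ν) with h | h
    · right; rw [Finset.mem_Ico]; exact ⟨hr.1.1, h⟩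
    · left
      unfold blk'
      rw [Finset.mem_filter, Finset.mem_Ico]
      exact ⟨⟨h, hr.1.2⟩, hr.2⟩
  have h2 := Finset.card_le_card h1
  have h3 := Finset.card_union_le (blk' j m k ν n) (Finset.Ico (aa m k) (aa m k + ν))
  rw [Nat.card_Ico] at h3
  omega

/-- Upper bound for `n` divisible by `(M+1)!`. -/
theorem upper (j M t : ℕ) (hj : 1 ≤ j) (hM : 1 ≤ M) (n : ℕ) (hn : n = (M + 1).factorial * t) :
    (S j n).card ≤ n / (M + 1) + 1 +
      ∑ m ∈ Finset.Icc 1 M, ((M + 1).factorial / (m + 1).factorial * t) * cnt j (m - 1) 0 := by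
  classical
  have hsub : S j n ⊆ Finset.range (n / (M + 1) + 1) ∪
      (Finset.Icc 1 M).biUnion
        (fun m => blk j m ((M + 1).factorial / (m + 1).factorial * t) 0) := by
    intro r hr
    rw [Finset.mem_union]
    rcases le_or_gt r (n / (M + 1)) with h | h
    · left; rw [Finset.mem_range]; omega
    · right
      have hr0 : 0 < r := lt_of_le_of_lt (Nat.zero_le _) h
      have h2 := S_le hr
      rw [Nat.div_lt_iff_lt_mul (by omega)] at h
      set m := (n - 1) / r with hm
      have hm1 : m * r ≤ n - 1 := Nat.div_mul_le_self _ _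
      have hm2 : n - 1 < (m + 1) * r := by
        have := Nat.lt_div_mul_add hr0 (a := n - 1)
        rw [← hm] at this
        rw [add_mul]; omega
      have hm3 : 1 ≤ m := by
        rw [hm, Nat.le_div_iff_mul_le hr0]; omega
      have hm4 : m ≤ M := by
        have : m * r < (M + 1) * r := by
          rw [mul_comm (M + 1)]; omega
        have := Nat.lt_of_mul_lt_mul_right this
        omega
      have hmr : m * r < n := by omega
      have hmr' : n ≤ (m + 1) * r := by omega
      rw [Finset.mem_biUnion]
      refine ⟨m, Finset.mem_Icc.mpr ⟨hm3, hm4⟩, ?_⟩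
      have hk : (m + 1).factorial * ((M + 1).factorial / (m + 1).factorial * t) = n := by
        rw [← mul_assoc, Nat.mul_div_cancel' (Nat.factorial_dvd_factorial (by omega)), hn]
      set k := (M + 1).factorial / (m + 1).factorial * t
      unfold blk
      rw [Finset.mem_filter, Finset.mem_Ico]
      refine ⟨⟨?_, ?_⟩, ?_⟩
      · have h5 := aa_mul m k
        rw [hk] at h5
        rw [← h5] at hmr'
        exact Nat.le_of_mul_le_mul_left hmr' (by omega)
      · have h5 := bb_mul m k hm3
        rw [hk] at h5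
        rw [← h5] at hmr
        exact Nat.lt_of_mul_lt_mul_left hmr
      · have h6 := (mem_S_iff j hj n r m hr0 hmr hmr').mp hr
        rwa [G_shift_n (m := 0)] at h6
        rw [sub_zero, Int.natCast_dvd_natCast, ← hk]
        exact (Nat.factorial_dvd_factorial (by omega)).mul_right _
  refine (Finset.card_le_card hsub).trans ((Finset.card_union_le _ _).trans ?_)
  rw [Finset.card_range]
  refine Nat.add_le_add_left ((Finset.card_biUnion_le).trans ?_) _
  apply Finset.sum_le_sum
  intro m hm
  rw [Finset.mem_Icc] at hm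
  rw [card_blk j m _ 0 hm.1]

/-- Lower bound. -/
theorem lower (j M t ν : ℕ) (hj : 1 ≤ j) (n : ℕ) (hn : n = (M + 1).factorial * t) :
    ∑ m ∈ Finset.Icc 1 M, ((M + 1).factorial / (m + 1).factorial * t) * cnt j (m - 1) ν ≤
      (S j (n + ν)).card + M * ν := by
  classical
  have hsub : (Finset.Icc 1 M).biUnion
        (fun m => blk' j m ((M + 1).factorial / (m + 1).factorial * t) ν ν) ⊆ S j (n + ν) := by
    intro r hr
    rw [Finset.mem_biUnion] at hr
    obtain ⟨m, hm, hr⟩ := hr
    rw [Finset.mem_Icc] at hm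
    have hk : (m + 1).factorial * ((M + 1).factorial / (m + 1).factorial * t) = n := by
      rw [← mul_assoc, Nat.mul_div_cancel' (Nat.factorial_dvd_factorial (by omega)), hn]
    set k := (M + 1).factorial / (m + 1).factorial * t
    unfold blk' at hr
    rw [Finset.mem_filter, Finset.mem_Ico] at hr
    obtain ⟨⟨h1, h2⟩, h3⟩ := hr
    have h5 := aa_mul m k
    have h6 := bb_mul m k hm.1
    rw [hk] at h5 h6
    have h7 : m * r < n + ν := by
      have : m * r < m * bb m k := Nat.mul_lt_mul_of_pos_left h2 (by omega)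
      omega
    have h8 : n + ν ≤ (m + 1) * r := by
      have : (m + 1) * (aa m k + ν) ≤ (m + 1) * r := Nat.mul_le_mul_left _ h1
      rw [mul_add, h5] at this
      nlinarith
    have hr0 : 0 < r := by
      rcases Nat.eq_zero_or_pos r with h0 | h0
      · rw [h0] at h8 h7
        omega
      · exact h0
    rw [mem_S_iff j hj (n + ν) r m hr0 h7 h8]
    rwa [G_shift_n (m := (ν : ℤ))]
    push_cast
    rw [add_sub_cancel_right, Int.natCast_dvd_natCast, ← hk]
    exact (Nat.factorial_dvd_factorial (by omega)).mul_right _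
  have hcard := Finset.card_le_card hsub
  rw [Finset.card_biUnion] at hcard
  · have h1 : ∀ m ∈ Finset.Icc 1 M,
        ((M + 1).factorial / (m + 1).factorial * t) * cnt j (m - 1) ν ≤
        (blk' j m ((M + 1).factorial / (m + 1).factorial * t) ν ν).card + ν := by
      intro m hm
      rw [Finset.mem_Icc] at hm
      rw [← card_blk j m _ ν hm.1]
      exact card_blk' _ _ _ _ _
    have h2 := Finset.sum_le_sum h1
    rw [Finset.sum_add_distrib, Finset.sum_const, Nat.card_Icc, smul_eq_mul,
      Nat.add_sub_cancel] at h2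
    omega
  · intro m hm m' hm' hne
    rw [Finset.coe_Icc, Set.mem_Icc] at hm hm'
    rw [Function.onFun, Finset.disjoint_left]
    intro r hr hr'
    unfold blk' at hr hr'
    rw [Finset.mem_filter, Finset.mem_Ico] at hr hr'
    have hk : (m + 1).factorial * ((M + 1).factorial / (m + 1).factorial * t) = n := by
      rw [← mul_assoc, Nat.mul_div_cancel' (Nat.factorial_dvd_factorial (by omega)), hn]
    have hk' : (m' + 1).factorial * ((M + 1).factorial / (m' + 1).factorial * t) = n := by
      rw [← mul_assoc, Nat.mul_div_cancel' (Nat.factorial_dvd_factorial (by omega)), hn]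
    set k := (M + 1).factorial / (m + 1).factorial * t
    set k' := (M + 1).factorial / (m' + 1).factorial * t
    have h5 := aa_mul m k
    have h6 := bb_mul m k hm.1
    have h5' := aa_mul m' k'
    have h6' := bb_mul m' k' hm'.1
    rw [hk] at h5 h6
    rw [hk'] at h5' h6'
    have e1 : n ≤ (m + 1) * r := h5 ▸ Nat.mul_le_mul_left _ (by omega)
    have e2 : m * r < n := h6 ▸ Nat.mul_lt_mul_of_pos_left hr.1.2 (by omega)
    have e1' : n ≤ (m' + 1) * r := h5' ▸ Nat.mul_le_mul_left _ (by omega)
    have e2' : m' * r < n := h6' ▸ Nat.mul_lt_mul_of_pos_left hr'.1.2 (by omega)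
    have e3 := Nat.lt_of_mul_lt_mul_right (e2.trans_le e1')
    have e4 := Nat.lt_of_mul_lt_mul_right (e2'.trans_le e1)
    omega

theorem exists_ν (M : ℕ) : ∃ ν : ℕ, (ev M.factorial : ℤ) ∣ (ν : ℤ) - 1 ∧
    (od M.factorial : ℤ) ∣ (ν : ℤ) := by
  obtain ⟨ν, h1, h2⟩ := Nat.chineseRemainder (coprime_ev_od M.factorial (Nat.factorial_ne_zero M)) 1 0
  refine ⟨ν, ?_, ?_⟩
  · have := (Nat.modEq_iff_dvd.mp h1.symm)
    simpa using this
  · exact_mod_cast (Nat.modEq_zero_iff_dvd.mp h2)

theorem key (j M ν t : ℕ) (hj : 2 ≤ j) (hM : j + 3 ≤ M)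
    (h2 : (ev M.factorial : ℤ) ∣ (ν : ℤ) - 1) (ho : (od M.factorial : ℤ) ∣ (ν : ℤ)) :
    (S j ((M + 1).factorial * t)).card + (M + 1).factorial / (j + 4).factorial * t ≤
      (S j ((M + 1).factorial * t + ν)).card + M * ν + ((M + 1).factorial * t) / (M + 1) + 1 := by
  have hu := upper j M t (by omega) (by omega) _ rfl
  have hl := lower j M t ν (by omega) _ rfl
  have hmono : ∀ m ∈ Finset.Icc 1 M, ((M + 1).factorial / (m + 1).factorial * t) * cnt j (m - 1) 0 +
      (if m = j + 3 then (M + 1).factorial / (j + 4).factorial * t else 0) ≤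
      ((M + 1).factorial / (m + 1).factorial * t) * cnt j (m - 1) ν := by
    intro m hm
    rw [Finset.mem_Icc] at hm
    have hd : (m - 1).factorial ∣ M.factorial := Nat.factorial_dvd_factorial (by omega)
    have h2' : (ev (m - 1).factorial : ℤ) ∣ (ν : ℤ) - 1 :=
      (Int.natCast_dvd_natCast.mpr (ev_dvd (Nat.factorial_ne_zero M) hd)).trans h2
    have ho' : (od (m - 1).factorial : ℤ) ∣ (ν : ℤ) :=
      (Int.natCast_dvd_natCast.mpr (od_dvd hd)).trans ho
    split_ifs with h
    · subst h
      have hlt : cnt j (j + 2) 0 < cnt j (j + 2) ν := by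
        obtain ⟨lA, lB, hA, hB, hpA, hpB⟩ := chains j hj
        exact cnt_lt j (j + 2) ν h2' ho' (even_all hj) lA lB hA hB hpA hpB
      have h3 : j + 3 - 1 = j + 2 := by omega
      rw [h3]
      calc (M + 1).factorial / (j + 3 + 1).factorial * t * cnt j (j + 2) 0 +
          (M + 1).factorial / (j + 4).factorial * t
          = (M + 1).factorial / (j + 3 + 1).factorial * t * (cnt j (j + 2) 0 + 1) := by ring
        _ ≤ _ := Nat.mul_le_mul_left _ hlt
    · rw [add_zero]
      exact Nat.mul_le_mul_left _ (cnt_le j (m - 1) ν ho')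
  have h3 := Finset.sum_le_sum hmono
  rw [Finset.sum_add_distrib, Finset.sum_ite_eq' (Finset.Icc 1 M) (j + 3),
    if_pos (Finset.mem_Icc.mpr ⟨by omega, hM⟩)] at h3
  omega

end Pool.Agent.V11302.Rem
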