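import Pool.Agent.V11302.Rem4

/-! Non-convergence. -/

open Filter Topology

namespace Pool.Agent.V11302.Rem

theorem key' (j ν t : ℕ) (hj : 2 ≤ j)
    (h2 : (ev (j + 4).factorial.factorial : ℤ) ∣ (ν : ℤ) - 1)
    (ho : (od (j + 4).factorial.factorial : ℤ) ∣ (ν : ℤ)) :
    (S j (((j + 4).factorial + 1).factorial * t)).card + ((j + 4).factorial - 1).factorial * t ≤
      (S j (((j + 4).factorial + 1).factorial * t + ν)).card + (j + 4).factorial * ν + 1 := by
  set M := (j + 4).factorial with hM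
  have hMj : j + 4 ≤ M := Nat.self_le_factorial _
  have h := key j M ν t hj (by omega) h2 ho
  have e1 : (M + 1).factorial / M = M.factorial + (M - 1).factorial := by
    have : (M + 1).factorial = M * (M.factorial + (M - 1).factorial) := by
      have h3 : M * (M - 1).factorial = M.factorial := Nat.mul_factorial_pred (by omega)
      rw [Nat.factorial_succ, mul_add, h3]; ring
    rw [this, Nat.mul_div_cancel_left _ (by omega)]
  have e2 : ((M + 1).factorial * t) / (M + 1) = M.factorial * t := by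
    rw [Nat.factorial_succ, mul_assoc, Nat.mul_div_cancel_left _ (by omega)]
  rw [← hM, e1, e2, add_mul] at h
  omega

theorem not_tendsto (j : ℕ) (hj : 2 ≤ j) :
    ¬ ∃ L : ℝ, Tendsto (fun n : ℕ => ((S j n).card : ℝ) / n) atTop (𝓝 L) := by
  rintro ⟨L, hL⟩
  set M := (j + 4).factorial with hM
  have hMj : j + 4 ≤ M := Nat.self_le_factorial _
  obtain ⟨ν, h2, ho⟩ := exists_ν M
  set A := (M + 1).factorial with hA
  have hA0 : 0 < A := Nat.factorial_pos _
  have hn1 : Tendsto (fun t : ℕ => A * (t + 1)) atTop atTop := by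
    apply tendsto_atTop_mono (f := fun t : ℕ => t) _ tendsto_id
    intro t
    show t ≤ A * (t + 1)
    nlinarith
  have hn2 : Tendsto (fun t : ℕ => A * (t + 1) + ν) atTop atTop :=
    tendsto_atTop_mono (fun t => Nat.le_add_right _ _) hn1
  have l1 := hL.comp hn1
  have l2 := hL.comp hn2
  have l3 : ∀ C : ℝ, Tendsto (fun t : ℕ => C / ((A * (t + 1) : ℕ) : ℝ)) atTop (𝓝 0) :=
    fun C => (tendsto_const_div_atTop_nhds_zero_nat C).comp hn1
  have l4 := (l2.mul ((l3 ν).const_add 1)).add (l3 (M * ν + 1))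
  have l5 := l1.add_const (((M - 1).factorial : ℝ) / A)
  have hle : ∀ t : ℕ, ((S j (A * (t + 1))).card : ℝ) / ((A * (t + 1) : ℕ) : ℝ) +
      ((M - 1).factorial : ℝ) / A ≤
      ((S j (A * (t + 1) + ν)).card : ℝ) / ((A * (t + 1) + ν : ℕ) : ℝ) *
        (1 + (ν : ℝ) / ((A * (t + 1) : ℕ) : ℝ)) + (M * ν + 1) / ((A * (t + 1) : ℕ) : ℝ) := by
    intro t
    have hk := key' j ν (t + 1) hj h2 ho
    rw [← hM, ← hA] at hk
    have hpos : (0 : ℝ) < ((A * (t + 1) : ℕ) : ℝ) := by
      exact_mod_cast Nat.mul_pos hA0 (Nat.succ_pos t)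
    have hpos2 : (0 : ℝ) < ((A * (t + 1) + ν : ℕ) : ℝ) := by
      push_cast at hpos ⊢
      positivity
    have hAr : (0 : ℝ) < A := by exact_mod_cast hA0
    have e1 : ((M - 1).factorial : ℝ) / A =
        (((M - 1).factorial * (t + 1) : ℕ) : ℝ) / ((A * (t + 1) : ℕ) : ℝ) := by
      push_cast
      rw [mul_div_mul_right _ _ (by positivity)]
    have e2 : ((S j (A * (t + 1) + ν)).card : ℝ) / ((A * (t + 1) + ν : ℕ) : ℝ) *
        (1 + (ν : ℝ) / ((A * (t + 1) : ℕ) : ℝ)) =
        ((S j (A * (t + 1) + ν)).card : ℝ) / ((A * (t + 1) : ℕ) : ℝ) := by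
      have : (1 + (ν : ℝ) / ((A * (t + 1) : ℕ) : ℝ)) =
          ((A * (t + 1) + ν : ℕ) : ℝ) / ((A * (t + 1) : ℕ) : ℝ) := by
        rw [Nat.cast_add, add_div, div_self hpos.ne']
      rw [this, div_mul_div_cancel₀ hpos2.ne']
    rw [e1, e2, ← add_div, ← add_div]
    apply div_le_div_of_nonneg_right _ hpos.le
    have : ((((S j (A * (t + 1))).card + (M - 1).factorial * (t + 1) : ℕ)) : ℝ) ≤
        ((((S j (A * (t + 1) + ν)).card + M * ν + 1 : ℕ)) : ℝ) := by exact_mod_cast hk
    push_cast at this ⊢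
    linarith
  have hfin := le_of_tendsto_of_tendsto' l5 l4 hle
  have hpos : (0 : ℝ) < ((M - 1).factorial : ℝ) / A := by
    have h3 : (0 : ℝ) < ((M - 1).factorial : ℝ) := by exact_mod_cast Nat.factorial_pos _
    have h4 : (0 : ℝ) < A := by exact_mod_cast hA0
    positivity
  simp at hfin
  linarith

theorem f_le (j n : ℕ) : ((S j n).card : ℝ) / n ≤ 2 := by
  rcases Nat.eq_zero_or_pos n with h | h
  · rw [h]; simp
  · rw [div_le_iff₀ (by exact_mod_cast h)]
    have h1 : S j n ⊆ Finset.range (n + 1) := by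
      intro r hr
      rw [Finset.mem_range]
      have := S_le hr
      omega
    have h2 := Finset.card_le_card h1
    rw [Finset.card_range] at h2
    have h3 : (S j n).card ≤ 2 * n := by omega
    exact_mod_cast h3

theorem liminf_lt_limsup (j : ℕ) (hj : 2 ≤ j) :
    liminf (fun n : ℕ => ((S j n).card : ℝ) / n) atTop <
      limsup (fun n : ℕ => ((S j n).card : ℝ) / n) atTop := by
  by_contra hcon
  rw [not_lt] at hcon
  have hb1 : IsBoundedUnder (· ≤ ·) atTop (fun n : ℕ => ((S j n).card : ℝ) / n) :=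
    isBoundedUnder_of ⟨2, f_le j⟩
  have hb2 : IsBoundedUnder (· ≥ ·) atTop (fun n : ℕ => ((S j n).card : ℝ) / n) :=
    isBoundedUnder_of ⟨0, fun n => by positivity⟩
  exact not_tendsto j hj ⟨_, tendsto_of_le_liminf_of_limsup_le le_rfl hcon hb1 hb2⟩

end Pool.Agent.V11302.Rem
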